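import Mathlib

/-! Small unitaries and averages of powers. -/

set_option autoImplicit false

open scoped ComplexOrder Topology
open Filter

noncomputable section

namespace Pool.Agent.H170R5.SC

/-- Every self-adjoint element of norm at most `1/4` is the real part of a unitary close to `i`. -/
theorem exists_unitary_near_I {B : Type} [CStarAlgebra B] (x : B) (hx : star x = x)
    (hn : ‖x‖ ≤ 1 / 4) :
    ∃ g : unitary B, (g : B) + star (g : B) = (2 : ℂ) • x ∧
      ‖(g : B) - Complex.I • (1 : B)‖ < 1 / 2 := by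
  have hsa : IsSelfAdjoint x := hx
  let s : B := cfc (fun t : ℝ => Real.sqrt (1 - t ^ 2)) x
  have hss : IsSelfAdjoint s := cfc_predicate _ _
  have hspec : ∀ t ∈ spectrum ℝ x, |t| ≤ 1 / 4 := by
    intro t ht
    rcases subsingleton_or_nontrivial B with hB | hB
    · exfalso
      have : spectrum ℝ x = ∅ := spectrum.of_subsingleton x
      rw [this] at ht
      exact ht
    · have := spectrum.norm_le_norm_of_mem ht
      rw [Real.norm_eq_abs] at this
      exact this.trans hn
  have hs2 : s * s = 1 - x * x := by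
    have h1 : s * s = cfc (fun t : ℝ => Real.sqrt (1 - t ^ 2) * Real.sqrt (1 - t ^ 2)) x := by
      rw [cfc_mul (fun t : ℝ => Real.sqrt (1 - t ^ 2)) (fun t : ℝ => Real.sqrt (1 - t ^ 2)) x]
    have h2 : cfc (fun t : ℝ => Real.sqrt (1 - t ^ 2) * Real.sqrt (1 - t ^ 2)) x =
        cfc (fun t : ℝ => 1 - t ^ 2) x := by
      refine cfc_congr ?_
      intro t ht
      have := hspec t ht
      have h3 : (0 : ℝ) ≤ 1 - t ^ 2 := by
        have := abs_le.1 this
        nlinarith
      exact Real.mul_self_sqrt h3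
    have h3 : cfc (fun t : ℝ => 1 - t ^ 2) x = 1 - x * x := by
      rw [cfc_sub (fun _ : ℝ => (1 : ℝ)) (fun t : ℝ => t ^ 2) x, cfc_const_one ℝ x,
        cfc_pow (fun t : ℝ => t) 2 x, cfc_id' ℝ x, pow_two]
    rw [h1, h2, h3]
  have hsx : s * x = x * s := by
    have : Commute s x := by
      have h1 := cfc_commute_cfc (fun t : ℝ => Real.sqrt (1 - t ^ 2)) (fun t : ℝ => t) x
      rwa [cfc_id' ℝ x] at h1
    exact this
  have h1s : ‖(1 : B) - s‖ ≤ 1 / 8 := by
    have h1 : (1 : B) - s = cfc (fun t : ℝ => 1 - Real.sqrt (1 - t ^ 2)) x := by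
      rw [cfc_sub (fun _ : ℝ => (1 : ℝ)) (fun t : ℝ => Real.sqrt (1 - t ^ 2)) x,
        cfc_const_one ℝ x]
    rw [h1]
    refine norm_cfc_le (by norm_num) (fun t ht => ?_)
    have h2 := abs_le.1 (hspec t ht)
    have h3 : (0 : ℝ) ≤ 1 - t ^ 2 := by nlinarith
    have h4 : Real.sqrt (1 - t ^ 2) ≤ 1 := by
      rw [Real.sqrt_le_iff]
      exact ⟨by norm_num, by nlinarith [sq_nonneg t]⟩
    have h5 : 7 / 8 ≤ Real.sqrt (1 - t ^ 2) := by
      refine Real.le_sqrt_of_sq_le ?_
      nlinarith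
    rw [Real.norm_eq_abs, abs_of_nonneg (by linarith)]
    linarith
  have hst : star s = s := hss
  have hstar : star (x + Complex.I • s) = x - Complex.I • s := by
    rw [star_add, star_smul, hx, hst, Complex.star_def, Complex.conj_I, neg_smul, sub_eq_add_neg]
  have hII : Complex.I * Complex.I = -1 := Complex.I_mul_I
  refine ⟨⟨x + Complex.I • s, ?_⟩, ?_, ?_⟩
  · rw [Unitary.mem_iff, hstar]
    constructor
    · rw [sub_mul, mul_add, mul_add, smul_mul_smul_comm, hII, hs2, mul_smul_comm, smul_mul_assoc,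
        hsx]
      simp only [neg_smul, one_smul]
      abel
    · rw [add_mul, mul_sub, mul_sub, smul_mul_smul_comm, hII, hs2, mul_smul_comm, smul_mul_assoc,
        hsx]
      simp only [neg_smul, one_smul]
      abel
  · show (x + Complex.I • s) + star (x + Complex.I • s) = _
    rw [hstar, two_smul]
    abel
  · show ‖(x + Complex.I • s) - Complex.I • (1 : B)‖ < 1 / 2
    have e : (x + Complex.I • s) - Complex.I • (1 : B) = x - Complex.I • (1 - s) := by
      rw [smul_sub]; abel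
    rw [e]
    calc ‖x - Complex.I • (1 - s)‖ ≤ ‖x‖ + ‖Complex.I • (1 - s)‖ := norm_sub_le _ _
      _ ≤ 1 / 4 + 1 / 8 := by
          rw [norm_smul, Complex.norm_I, one_mul]
          exact add_le_add hn h1s
      _ < 1 / 2 := by norm_num

/-- If `g - 1` is invertible then the averages of the powers of the unitary `g` tend to `0`. -/
theorem avg_tendsto {B : Type} [CStarAlgebra B] (g : unitary B) (w : B)
    (hw : ((g : B) - 1) * w = 1) :
    Tendsto (fun N : ℕ => ((N : ℂ))⁻¹ • ∑ k ∈ Finset.range N, (g : B) ^ k) atTop (𝓝 0) := by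
  have h1 : ∀ N : ℕ, ∑ k ∈ Finset.range N, (g : B) ^ k = ((g : B) ^ N - 1) * w := by
    intro N
    have h2 := geom_sum_mul (g : B) N
    calc ∑ k ∈ Finset.range N, (g : B) ^ k
        = (∑ k ∈ Finset.range N, (g : B) ^ k) * (((g : B) - 1) * w) := by rw [hw, mul_one]
      _ = ((g : B) ^ N - 1) * w := by rw [← mul_assoc, h2]
  have hno : ‖(1 : B)‖ ≤ 1 := by
    rcases subsingleton_or_nontrivial B with h | h
    · have : (1 : B) = 0 := Subsingleton.elim _ _
      rw [this]; simp
    · exact (CStarRing.norm_one (E := B)).le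
  have hgn : ∀ N : ℕ, ‖(g : B) ^ N‖ ≤ 1 := by
    intro N
    have h2 : star ((g : B) ^ N) * (g : B) ^ N = 1 := by
      have := Unitary.coe_star_mul_self (g ^ N)
      simpa using this
    have h3 : ‖star ((g : B) ^ N) * (g : B) ^ N‖ = ‖(g : B) ^ N‖ * ‖(g : B) ^ N‖ :=
      CStarRing.norm_star_mul_self
    rw [h2] at h3
    nlinarith [norm_nonneg ((g : B) ^ N)]
  have hb : ∀ N : ℕ, ‖((N : ℂ))⁻¹ • ∑ k ∈ Finset.range N, (g : B) ^ k‖ ≤
      (2 * ‖w‖) * ((N : ℝ))⁻¹ := by
    intro N
    rw [norm_smul, norm_inv, Complex.norm_natCast, h1]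
    have h2 : ‖((g : B) ^ N - 1) * w‖ ≤ 2 * ‖w‖ := by
      refine (norm_mul_le _ _).trans ?_
      refine mul_le_mul_of_nonneg_right ?_ (norm_nonneg _)
      exact (norm_sub_le _ _).trans (by linarith [hgn N])
    rw [mul_comm]
    exact mul_le_mul_of_nonneg_right h2 (by positivity)
  refine squeeze_zero_norm hb ?_
  have := (tendsto_inv_atTop_nhds_zero_nat (𝕜 := ℝ)).const_mul (2 * ‖w‖)
  simpa using this

/-- Elements at distance less than `2` from `-1`: `g - 1` is invertible. -/
theorem exists_inv_sub_one {B : Type} [CStarAlgebra B] (g : B) (c : ℂ) (hc : c ≠ 0) (h : ‖g - (1 + c) • (1 : B)‖ < ‖c‖) :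
    ∃ w, (g - 1) * w = 1 := by
  have h1 : ‖c⁻¹ • (g - (1 + c) • (1 : B))‖ < 1 := by
    rw [norm_smul, norm_inv]
    rw [inv_mul_lt_one₀ (norm_pos_iff.2 hc)]
    exact h
  have h2 : IsUnit (1 - (-(c⁻¹ • (g - (1 + c) • (1 : B))))) :=
    isUnit_one_sub_of_norm_lt_one (by rwa [norm_neg])
  obtain ⟨u, hu⟩ := h2
  have h3 : g - 1 = c • (u : B) := by
    rw [hu, sub_neg_eq_add, smul_add, smul_smul, mul_inv_cancel₀ hc, one_smul, add_smul, one_smul]
    abel
  refine ⟨c⁻¹ • (↑u⁻¹ : B), ?_⟩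
  rw [h3, smul_mul_smul_comm, mul_inv_cancel₀ hc, Units.mul_inv, one_smul]

end Pool.Agent.H170R5.SC
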