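import Mathlib
import Pool.Agent.H170R5.SC.Small
import Pool.Agent.H594R3.GEN.OneGen
import Pool.Agent.H735G.Defs
import Pool.Agent.Helper467.FP.P_exists_closure
import Pool.Agent.Helper467.FP.P_isClosed_of_isW
import Pool.Agent.Helper467.FP.P_tau_bounds

/-! Weighted shifts in `M_4(B)` and the generation theorem. -/

set_option autoImplicit false

open scoped ComplexOrder Topology
open Filter

noncomputable section

namespace Pool.Agent.H170R5.SC

open Pool.Agent.H467F Pool.Agent.H735G Pool.Agent.H594R3.GEN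

variable {A : Type} [CStarAlgebra A] {B : Type} [CStarAlgebra B]

section shifts

variable {e : Fin 4 → Fin 4 → A} {ι : B →⋆ₐ[ℂ] A}

/-- diagonal elements -/
def dg (e : Fin 4 → Fin 4 → A) (ι : B →⋆ₐ[ℂ] A) (d : Fin 4 → B) : A := ∑ i, ι (d i) * e i i

/-- weighted shifts -/
def sh (e : Fin 4 → Fin 4 → A) (ι : B →⋆ₐ[ℂ] A) (a : Fin 4 → B) : A :=
  ∑ i, ι (a i) * e (i + 1) i

theorem term_mul (he : MU e) (hc : ∀ b i j, ι b * e i j = e i j * ι b) (x y : B)
    (i j k l : Fin 4) :
    (ι x * e i j) * (ι y * e k l) = if j = k then ι (x * y) * e i l else 0 := by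
  have : (ι x * e i j) * (ι y * e k l) = ι x * (e i j * ι y) * e k l := by
    simp only [mul_assoc]
  rw [this, ← hc, ← mul_assoc, mul_assoc, mul_assoc, he.mul, ← mul_assoc, ← map_mul]
  split_ifs <;> simp

theorem sum_mul_sum' (he : MU e) (hc : ∀ b i j, ι b * e i j = e i j * ι b) (x y : Fin 4 → B)
    (p q r s : Fin 4 → Fin 4) :
    (∑ i, ι (x i) * e (p i) (q i)) * (∑ j, ι (y j) * e (r j) (s j)) =
      ∑ i, ∑ j, if q i = r j then ι (x i * y j) * e (p i) (s j) else 0 := by
  rw [Finset.sum_mul_sum]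
  refine Finset.sum_congr rfl fun i _ => Finset.sum_congr rfl fun j _ => ?_
  exact term_mul he hc _ _ _ _ _ _

theorem dg_mul_dg (he : MU e) (hc : ∀ b i j, ι b * e i j = e i j * ι b) (c d : Fin 4 → B) :
    dg e ι c * dg e ι d = dg e ι (fun i => c i * d i) := by
  unfold dg
  refine (sum_mul_sum' he hc c d id id id id).trans ?_
  refine Finset.sum_congr rfl fun i _ => ?_
  rw [Finset.sum_eq_single i]
  · simp
  · intro j _ hj
    simp [hj.symm]
  · simp

theorem dg_mul_sh (he : MU e) (hc : ∀ b i j, ι b * e i j = e i j * ι b) (c a : Fin 4 → B) :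
    dg e ι c * sh e ι a = sh e ι (fun i => c (i + 1) * a i) := by
  unfold dg sh
  refine (sum_mul_sum' he hc c a id id (fun i => i + 1) id).trans ?_
  rw [Finset.sum_comm]
  refine Finset.sum_congr rfl fun i _ => ?_
  rw [Finset.sum_eq_single (i + 1)]
  · simp
  · intro j _ hj
    simp [hj]
  · simp

theorem sh_mul_dg (he : MU e) (hc : ∀ b i j, ι b * e i j = e i j * ι b) (c a : Fin 4 → B) :
    sh e ι a * dg e ι c = sh e ι (fun i => a i * c i) := by
  unfold dg sh
  refine (sum_mul_sum' he hc a c (fun i => i + 1) id id id).trans ?_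
  refine Finset.sum_congr rfl fun i _ => ?_
  rw [Finset.sum_eq_single i]
  · simp
  · intro j _ hj
    simp [hj.symm]
  · simp

theorem star_dg (he : MU e) (hc : ∀ b i j, ι b * e i j = e i j * ι b) (c : Fin 4 → B) :
    star (dg e ι c) = dg e ι (fun i => star (c i)) := by
  unfold dg
  rw [star_sum]
  refine Finset.sum_congr rfl fun i _ => ?_
  rw [star_mul, he.star, ← map_star, ← hc]

theorem star_sh (he : MU e) (hc : ∀ b i j, ι b * e i j = e i j * ι b) (a : Fin 4 → B) :
    star (sh e ι a) = ∑ i, ι (star (a i)) * e i (i + 1) := by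
  unfold sh
  rw [star_sum]
  refine Finset.sum_congr rfl fun i _ => ?_
  rw [star_mul, he.star, ← map_star, ← hc]

theorem star_sh_mul_sh (he : MU e) (hc : ∀ b i j, ι b * e i j = e i j * ι b) (a b : Fin 4 → B) :
    star (sh e ι a) * sh e ι b = dg e ι (fun i => star (a i) * b i) := by
  rw [star_sh he hc]
  unfold sh dg
  refine (sum_mul_sum' he hc (fun i => star (a i)) b id (fun i => i + 1) (fun i => i + 1) id).trans ?_
  refine Finset.sum_congr rfl fun i _ => ?_
  rw [Finset.sum_eq_single i]
  · simp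
  · intro j _ hj
    have : i + 1 ≠ j + 1 := fun h => hj (add_right_cancel h).symm
    simp [this]
  · simp

theorem sh_mul_star_sh (he : MU e) (hc : ∀ b i j, ι b * e i j = e i j * ι b) (a : Fin 4 → B)
    (ha : ∀ i, a i * star (a i) = 1) : sh e ι a * star (sh e ι a) = 1 := by
  rw [star_sh he hc]
  unfold sh
  refine (sum_mul_sum' he hc a (fun i => star (a i)) (fun i => i + 1) id id
    (fun i => i + 1)).trans ?_
  have key : ∀ i : Fin 4, (∑ j : Fin 4, if id i = id j then
      ι (a i * star (a j)) * e (i + 1) (j + 1) else 0) = e (i + 1) (i + 1) := by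
    intro i
    rw [Finset.sum_eq_single i]
    · simp [ha]
    · intro j _ hj
      simp [hj.symm]
    · simp
  rw [Finset.sum_congr rfl (fun i _ => key i), ← he.sum]
  exact Equiv.sum_comp (Equiv.addRight (1 : Fin 4)) (fun i => e i i)

theorem dg_const (he : MU e) (b : B) : dg e ι (fun _ => b) = ι b := by
  unfold dg
  rw [← Finset.mul_sum, he.sum, mul_one]

theorem dg_one (he : MU e) : dg e ι (fun _ => 1) = 1 := by
  rw [dg_const he, map_one]

theorem dg_pow (he : MU e) (hc : ∀ b i j, ι b * e i j = e i j * ι b) (d : Fin 4 → B) (k : ℕ) :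
    dg e ι d ^ k = dg e ι (fun i => d i ^ k) := by
  induction k with
  | zero => simp only [pow_zero]; exact (dg_one he).symm
  | succ k ih =>
    rw [pow_succ, ih, dg_mul_dg he hc]
    simp only [pow_succ]

theorem sh_sh (he : MU e) (hc : ∀ b i j, ι b * e i j = e i j * ι b) (a : Fin 4 → B) :
    (sh e ι a * sh e ι a) * (sh e ι a * sh e ι a) =
      dg e ι (fun i => a (i + 3) * a (i + 2) * (a (i + 1) * a i)) := by
  have h1 : sh e ι a * sh e ι a = ∑ i, ι (a (i + 1) * a i) * e (i + 2) i := by
    unfold sh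
    refine (sum_mul_sum' he hc a a (fun i => i + 1) id (fun i => i + 1) id).trans ?_
    rw [Finset.sum_comm]
    refine Finset.sum_congr rfl fun i _ => ?_
    rw [Finset.sum_eq_single (i + 1)]
    · simp only [id, if_true]
      congr 2
      rw [add_assoc]; rfl
    · intro j _ hj
      simp [hj]
    · simp
  rw [h1]
  refine (sum_mul_sum' he hc (fun i => a (i + 1) * a i) (fun i => a (i + 1) * a i)
    (fun i => i + 2) id (fun i => i + 2) id).trans ?_
  rw [Finset.sum_comm]
  unfold dg
  refine Finset.sum_congr rfl fun i _ => ?_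
  rw [Finset.sum_eq_single (i + 2)]
  · simp only [id, if_true]
    have e1 : i + 2 + 1 = i + 3 := by rw [add_assoc]; rfl
    have e2 : i + 2 + 2 = i := by
      rw [add_assoc]
      have : (2 : Fin 4) + 2 = 0 := rfl
      rw [this, add_zero]
    rw [e1, e2]
  · intro j _ hj
    simp [hj]
  · simp

end shifts

end Pool.Agent.H170R5.SC
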