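import Mathlib
import Pool.Agent.H270R2.GEN.Pre

/-! Existence of Haar unitaries in a separable tracial von Neumann algebra without abelian
projections. -/

set_option autoImplicit false

open scoped ComplexOrder Topology
open Filter

noncomputable section

namespace Pool.Agent.H170R5.SC

open Pool.Agent.H467F Pool.Agent.H735G Pool.Agent.H270G Pool.Agent.H270G.Pre

variable {A : Type} [CStarAlgebra A] {τ : A →ₗ[ℂ] ℂ}

/-- roots of unity -/
def om (j : ℕ) : ℂ := Complex.exp (Complex.I * ((2 * Real.pi / 2 ^ (j + 1) : ℝ) : ℂ))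

theorem om_pow (j : ℕ) : om j ^ (2 ^ j) = -1 := by
  unfold om
  rw [← Complex.exp_nat_mul]
  have : (((2 ^ j : ℕ) : ℂ)) * (Complex.I * ((2 * Real.pi / 2 ^ (j + 1) : ℝ) : ℂ)) =
      Real.pi * Complex.I := by
    push_cast
    rw [pow_succ]
    field_simp
  rw [this, Complex.exp_pi_mul_I]

theorem om_norm (j : ℕ) : ‖om j‖ = 1 := by
  unfold om
  rw [mul_comm]
  exact Complex.norm_exp_ofReal_mul_I _

theorem om_sub (j : ℕ) : ‖om j - 1‖ ≤ Real.pi * (1 / 2) ^ j := by
  unfold om
  refine Real.norm_exp_I_mul_ofReal_sub_one_le.trans ?_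
  rw [Real.norm_of_nonneg (by positivity)]
  have h2 : (2 : ℝ) ^ j ≠ 0 := by positivity
  rw [pow_succ, one_div, inv_pow]
  field_simp
  exact le_refl _

theorem om_odd (k : ℕ) (hk : 0 < k) : ∃ a, om a ^ k = -1 := by
  obtain ⟨a, m, hm, rfl⟩ := Nat.exists_eq_two_pow_mul_odd hk.ne'
  exact ⟨a, by rw [pow_mul, om_pow, hm.neg_one_pow]⟩

/-- the factor `1 + (ω - 1) (1 + s)/2` -/
def Fc (s : ℕ → A) (w : ℕ → ℂ) (j : ℕ) : A := ((1 + w j) / 2) • (1 : A) + ((w j - 1) / 2) • s j

theorem Fc_mul {s : ℕ → A} {w w' : ℕ → ℂ} {j : ℕ} (hs : s j * s j = 1) :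
    Fc s w j * Fc s w' j = Fc s (fun i => w i * w' i) j := by
  unfold Fc
  simp only [add_mul, mul_add, smul_mul_smul_comm, one_mul, mul_one, hs]
  module

theorem Fc_one {s : ℕ → A} {j : ℕ} : Fc s (fun _ => 1) j = 1 := by
  unfold Fc
  norm_num

/-- product -/
def Hp (s : ℕ → A) (w : ℕ → ℂ) : ℕ → A
  | 0 => 1
  | J + 1 => Hp s w J * Fc s w J

theorem Fc_comm_of {s : ℕ → A} {w : ℕ → ℂ} {j : ℕ} {x : A} (h : s j * x = x * s j) :
    Fc s w j * x = x * Fc s w j := by
  unfold Fc
  rw [add_mul, mul_add, smul_mul_assoc, smul_mul_assoc, h, mul_smul_comm, mul_smul_comm, one_mul,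
    mul_one]

theorem Hp_comm_of {s : ℕ → A} {w : ℕ → ℂ} {x : A} (J : ℕ) (h : ∀ j < J, s j * x = x * s j) :
    Hp s w J * x = x * Hp s w J := by
  induction J with
  | zero => simp [Hp]
  | succ J ih =>
    show Hp s w J * Fc s w J * x = x * (Hp s w J * Fc s w J)
    rw [mul_assoc, Fc_comm_of (h J (Nat.lt_succ_self J)), ← mul_assoc,
      ih (fun j hj => h j (Nat.lt_succ_of_lt hj)), mul_assoc]

theorem Hp_mul {s : ℕ → A} {w w' : ℕ → ℂ} (hs : ∀ j, s j * s j = 1)
    (hc : ∀ j k, s j * s k = s k * s j) (J : ℕ) :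
    Hp s w J * Hp s w' J = Hp s (fun i => w i * w' i) J := by
  induction J with
  | zero => simp [Hp]
  | succ J ih =>
    show (Hp s w J * Fc s w J) * (Hp s w' J * Fc s w' J) = _
    have h1 : Fc s w J * Hp s w' J = Hp s w' J * Fc s w J :=
      (Hp_comm_of J (fun j _ => (Fc_comm_of (hc J j)).symm)).symm
    calc (Hp s w J * Fc s w J) * (Hp s w' J * Fc s w' J)
        = Hp s w J * (Fc s w J * Hp s w' J) * Fc s w' J := by simp only [mul_assoc]
      _ = (Hp s w J * Hp s w' J) * (Fc s w J * Fc s w' J) := by rw [h1]; simp only [mul_assoc]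
      _ = _ := by rw [ih, Fc_mul (hs J)]; rfl

theorem Hp_one {s : ℕ → A} (J : ℕ) : Hp s (fun _ => 1) J = 1 := by
  induction J with
  | zero => rfl
  | succ J ih =>
    show Hp s (fun _ => 1) J * Fc s (fun _ => 1) J = 1
    rw [ih, Fc_one, one_mul]

theorem Hp_pow {s : ℕ → A} {w : ℕ → ℂ} (hs : ∀ j, s j * s j = 1)
    (hc : ∀ j k, s j * s k = s k * s j) (J k : ℕ) :
    Hp s w J ^ k = Hp s (fun i => w i ^ k) J := by
  induction k with
  | zero => simp only [pow_zero]; exact (Hp_one J).symm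
  | succ k ih =>
    rw [pow_succ, ih, Hp_mul hs hc]
    simp only [pow_succ]

theorem Fc_star {s : ℕ → A} {w : ℕ → ℂ} {j : ℕ} (hs : star (s j) = s j) :
    star (Fc s w j) = Fc s (fun i => star (w i)) j := by
  unfold Fc
  rw [star_add, star_smul, star_smul, hs, star_one]
  simp [Complex.star_def]

theorem Hp_star {s : ℕ → A} {w : ℕ → ℂ} (hss : ∀ j, star (s j) = s j)
    (hc : ∀ j k, s j * s k = s k * s j) (J : ℕ) :
    star (Hp s w J) = Hp s (fun i => star (w i)) J := by
  induction J with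
  | zero => simp [Hp]
  | succ J ih =>
    show star (Hp s w J * Fc s w J) = Hp s _ J * Fc s _ J
    rw [star_mul, ih, Fc_star (hss J)]
    exact (Hp_comm_of J (fun j _ => (Fc_comm_of (hc J j)).symm)).symm

theorem Hp_trace (h : TW τ) {s t : ℕ → A} {w : ℕ → ℂ} (hp : ∀ K, PauK s t K) (J : ℕ) :
    τ (Hp s w J) = ∏ j ∈ Finset.range J, ((1 + w j) / 2) := by
  induction J with
  | zero => simp [Hp, h.one]
  | succ J ih =>
    have hP := hp (J + 1)
    have hJ := Nat.lt_succ_self J
    have hz : τ (Hp s w J * s J) = 0 := by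
      have hct : Hp s w J * t J = t J * Hp s w J := by
        refine Hp_comm_of J (fun j hj => ?_)
        exact hP.cst j (Nat.lt_succ_of_lt hj) J hJ hj.ne
      have h1 : τ (Hp s w J * s J) = τ (t J * (Hp s w J * s J) * t J) := by
        rw [h.comm (t J * (Hp s w J * s J)) (t J), ← mul_assoc, hP.t1 J hJ, one_mul]
      have h2 : t J * (Hp s w J * s J) * t J = -(Hp s w J * s J) := by
        rw [← mul_assoc, ← hct, mul_assoc, mul_assoc, hP.anti J hJ, mul_neg, mul_neg,
          ← mul_assoc (t J), hP.t1 J hJ, one_mul]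
      rw [h2, map_neg] at h1
      have h3 : (2 : ℂ) * τ (Hp s w J * s J) = 0 := by linear_combination h1
      simpa using h3
    show τ (Hp s w J * Fc s w J) = _
    unfold Fc
    rw [mul_add, mul_smul_comm, mul_smul_comm, mul_one, map_add, map_smul, map_smul, hz, ih,
      Finset.prod_range_succ]
    simp [mul_comm]

theorem norm_one_le (A : Type) [CStarAlgebra A] : ‖(1 : A)‖ ≤ 1 := by
  rcases subsingleton_or_nontrivial A with h | h
  · have : (1 : A) = 0 := Subsingleton.elim _ _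
    rw [this]; simp
  · exact (CStarRing.norm_one (E := A)).le

theorem norm_le_of_star_mul {x : A} (hx : star x * x = 1) : ‖x‖ ≤ 1 := by
  have h1 : ‖star x * x‖ = ‖x‖ * ‖x‖ := CStarRing.norm_star_mul_self
  rw [hx] at h1
  have h2 := norm_one_le A
  nlinarith [norm_nonneg x]

/-- Haar unitary, version with natural exponents. -/
def HaarN (τ : A →ₗ[ℂ] ℂ) (u : A) : Prop := ∀ k : ℕ, 0 < k → τ (u ^ k) = 0

theorem tau_cont (h : TW τ) {x : ℕ → A} {y : A} (hx : Tendsto x atTop (𝓝 y)) :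
    Tendsto (fun n => τ (x n)) atTop (𝓝 (τ y)) := by
  rw [tendsto_iff_norm_sub_tendsto_zero] at hx ⊢
  refine squeeze_zero (fun n => norm_nonneg _) (fun n => ?_) hx
  rw [← map_sub]
  exact ((tau_bounds h).1 _).trans ((tau_bounds h).2 _)

theorem exists_haar (h : TW τ) (hS : SepT τ) (hA : NoAbA A) :
    ∃ u : unitary A, HaarN τ (u : A) := by
  obtain ⟨s, t, hp, -⟩ := T_SEQ.pau_seq (fun A _ τ h => T_CEN.ezp h)
    (fun A _ τ h hA => sHalf A τ h hA) (fun A _ τ h hA s t K hp => sRel A τ h hA s t K hp)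
    sAvp sAvg h hS hA
  have hss : ∀ j, star (s j) = s j := fun j => (hp (j + 1)).ss j (Nat.lt_succ_self j)
  have hs1 : ∀ j, s j * s j = 1 := fun j => (hp (j + 1)).s1 j (Nat.lt_succ_self j)
  have hc : ∀ j k, s j * s k = s k * s j := fun j k =>
    (hp (j + k + 1)).css j (by omega) k (by omega)
  have hn : ∀ j, ‖s j‖ ≤ 1 := fun j => norm_le_of_star_mul (by rw [hss, hs1])
  have hU : ∀ J, star (Hp s om J) * Hp s om J = 1 ∧ Hp s om J * star (Hp s om J) = 1 := by
    intro J
    rw [Hp_star hss hc, Hp_mul hs1 hc, Hp_mul hs1 hc]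
    have e1 : (fun i => star (om i) * om i) = fun _ => (1 : ℂ) := by
      funext i
      rw [Complex.star_def, ← Complex.normSq_eq_conj_mul_self, Complex.normSq_eq_norm_sq, om_norm]
      norm_num
    have e2 : (fun i => om i * star (om i)) = fun _ => (1 : ℂ) := by
      funext i
      rw [mul_comm]
      exact congrFun e1 i
    rw [e1, e2, Hp_one]
    exact ⟨rfl, rfl⟩
  have hHn : ∀ J, ‖Hp s om J‖ ≤ 1 := fun J => norm_le_of_star_mul (hU J).1
  have hcau : CauchySeq (Hp s om) := by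
    refine cauchySeq_of_le_geometric (1 / 2) Real.pi (by norm_num) (fun n => ?_)
    rw [dist_comm, dist_eq_norm]
    have e1 : Hp s om (n + 1) - Hp s om n = Hp s om n * (((om n - 1) / 2) • (1 + s n)) := by
      show Hp s om n * Fc s om n - Hp s om n = _
      unfold Fc
      rw [show ((1 + om n) / 2) • (1 : A) = (1 : A) + ((om n - 1) / 2) • (1 : A) by module]
      rw [smul_add, mul_add, mul_add, mul_add, mul_one]
      abel
    rw [e1]
    have h1 : ‖(1 : A) + s n‖ ≤ 2 := (norm_add_le _ _).trans (by linarith [norm_one_le A, hn n])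
    calc ‖Hp s om n * (((om n - 1) / 2) • (1 + s n))‖
        ≤ ‖Hp s om n‖ * ‖((om n - 1) / 2) • (1 + s n)‖ := norm_mul_le _ _
      _ ≤ 1 * (‖om n - 1‖ / 2 * 2) := by
          refine mul_le_mul (hHn n) ?_ (norm_nonneg _) zero_le_one
          rw [norm_smul, norm_div]
          have : ‖(2 : ℂ)‖ = 2 := by norm_num
          rw [this]
          exact mul_le_mul_of_nonneg_left h1 (by positivity)
      _ ≤ Real.pi * (1 / 2) ^ n := by
          have := om_sub n
          linarith
  obtain ⟨y, hy⟩ := cauchySeq_tendsto_of_complete hcau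
  have hys : Tendsto (fun n => star (Hp s om n)) atTop (𝓝 (star y)) :=
    (continuous_star.tendsto y).comp hy
  have hy1 : star y * y = 1 := tendsto_nhds_unique (hys.mul hy)
    (by simp only [fun J => (hU J).1]; exact tendsto_const_nhds)
  have hy2 : y * star y = 1 := tendsto_nhds_unique (hy.mul hys)
    (by simp only [fun J => (hU J).2]; exact tendsto_const_nhds)
  refine ⟨⟨y, Unitary.mem_iff.2 ⟨hy1, hy2⟩⟩, ?_⟩
  intro k hk
  obtain ⟨a, ha⟩ := om_odd k hk
  have hlim := tau_cont h (hy.pow k)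
  refine tendsto_nhds_unique hlim ?_
  refine tendsto_const_nhds.congr' ?_
  filter_upwards [eventually_gt_atTop a] with J hJ
  rw [Hp_pow hs1 hc, Hp_trace h hp]
  symm
  refine Finset.prod_eq_zero (Finset.mem_range.2 hJ) ?_
  rw [ha]
  norm_num

end Pool.Agent.H170R5.SC
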