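import Mathlib
import Pool.Agent.H170R5.SC.Gen
import Pool.Agent.H170R5.SC.HaarEx
import Pool.Agent.H735G.Almost
import Pool.Agent.H270R2.GEN.FS

/-! Every separable tracial von Neumann algebra without abelian projections is generated by two
unitarily conjugate Haar unitaries. -/

set_option autoImplicit false

open scoped ComplexOrder Topology
open Filter

noncomputable section

namespace Pool.Agent.H170R5.SC

open Pool.Agent.H467F Pool.Agent.H735G Pool.Agent.H594R3.GEN

variable {A : Type} [CStarAlgebra A] {B : Type} [CStarAlgebra B]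

variable {e : Fin 4 → Fin 4 → A} {ι : B →⋆ₐ[ℂ] A}

theorem dg_add (x y : Fin 4 → B) : dg e ι (fun i => x i + y i) = dg e ι x + dg e ι y := by
  unfold dg
  rw [← Finset.sum_add_distrib]
  exact Finset.sum_congr rfl fun i _ => by rw [map_add, add_mul]

theorem dg_smul (c : ℂ) (x : Fin 4 → B) : dg e ι (fun i => c • x i) = c • dg e ι x := by
  unfold dg
  rw [Finset.smul_sum]
  exact Finset.sum_congr rfl fun i _ => by rw [map_smul, smul_mul_assoc]

theorem dg_sum {κ : Type} (s : Finset κ) (x : κ → Fin 4 → B) :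
    dg e ι (fun i => ∑ k ∈ s, x k i) = ∑ k ∈ s, dg e ι (x k) := by
  classical
  induction s using Finset.induction_on with
  | empty => simp [dg]
  | insert a s ha ih =>
    rw [Finset.sum_insert ha, ← ih, ← dg_add]
    simp only [Finset.sum_insert ha]

theorem sh_smul (c : ℂ) (x : Fin 4 → B) : sh e ι (fun i => c • x i) = c • sh e ι x := by
  unfold sh
  rw [Finset.smul_sum]
  exact Finset.sum_congr rfl fun i _ => by rw [map_smul, smul_mul_assoc]

theorem conj_pow' (z z' x : A) (hz : z' * z = 1) (k : ℕ) :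
    (z * x * z') ^ k * z = z * x ^ k := by
  induction k with
  | zero => simp
  | succ k ih =>
    rw [pow_succ']
    calc z * x * z' * (z * x * z') ^ k * z = z * x * z' * ((z * x * z') ^ k * z) := by
          rw [mul_assoc]
      _ = z * x * (z' * z) * x ^ k := by rw [ih]; simp only [mul_assoc]
      _ = _ := by rw [hz, mul_one, pow_succ']; simp only [mul_assoc]

theorem tau_conj_pow {τ : A →ₗ[ℂ] ℂ} (h : TW τ) (z z' x : A) (hz : z' * z = 1) (hz' : z * z' = 1)
    (k : ℕ) : τ ((z * x * z') ^ k) = τ (x ^ k) := by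
  have h1 : (z * x * z') ^ k = z * x ^ k * z' := by
    rw [← conj_pow' z z' x hz k, mul_assoc ((z * x * z') ^ k), hz', mul_one]
  rw [h1, h.comm, ← mul_assoc, hz, one_mul]

theorem haar_sh {τ : A →ₗ[ℂ] ℂ} (h : TW τ) (he : MU e)
    (hc : ∀ b i j, ι b * e i j = e i j * ι b) {σ : B →ₗ[ℂ] ℂ} (hσ : ∀ b, σ b = τ (ι b)) (g : B)
    (hg : HaarN σ g) : HaarN τ (sh e ι ![1, 1, 1, g]) := by
  intro k hk
  set X : A := sh e ι ![1, 1, 1, g] with hX
  let zc : Fin 4 → ℂ := ![1, Complex.I, -1, -Complex.I]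
  let z : Fin 4 → B := fun i => zc i • 1
  have hzz : ∀ i, star (z i) * z i = 1 := by
    intro i
    simp only [z, star_smul, star_one, smul_mul_smul_comm, mul_one]
    fin_cases i <;> simp [zc]
  have hzz' : ∀ i, z i * star (z i) = 1 := by
    intro i
    simp only [z, star_smul, star_one, smul_mul_smul_comm, mul_one]
    fin_cases i <;> simp [zc]
  have h1 : dg e ι (fun i => star (z i)) * dg e ι z = 1 := by
    rw [dg_mul_dg he hc]
    simp only [hzz]
    exact dg_one he
  have h2 : dg e ι z * dg e ι (fun i => star (z i)) = 1 := by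
    rw [dg_mul_dg he hc]
    simp only [hzz']
    exact dg_one he
  have h3 : dg e ι z * X * dg e ι (fun i => star (z i)) = Complex.I • X := by
    rw [hX, dg_mul_sh he hc, sh_mul_dg he hc, ← sh_smul]
    congr 1
    funext i
    simp only [z, star_smul, star_one, smul_mul_assoc, mul_smul_comm, one_mul, mul_one]
    fin_cases i <;> simp [zc, smul_smul]
  have h4 := tau_conj_pow h (dg e ι z) (dg e ι (fun i => star (z i))) X h1 h2 k
  rw [h3, smul_pow, map_smul, smul_eq_mul] at h4
  have h5 : (Complex.I ^ k - 1) * τ (X ^ k) = 0 := by linear_combination h4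
  rcases mul_eq_zero.1 h5 with h6 | h6
  · have h7 : k % 4 = 0 := by
      have h8 : Complex.I ^ k = Complex.I ^ (k % 4) := by
        conv_lhs => rw [← Nat.div_add_mod k 4]
        rw [pow_add, pow_mul, Complex.I_pow_four, one_pow, one_mul]
      rw [h8] at h6
      have h9 : k % 4 < 4 := Nat.mod_lt _ (by norm_num)
      generalize k % 4 = r at h6 h9
      interval_cases r
      · rfl
      · exfalso
        have := congrArg Complex.re h6
        simp at this
      · exfalso
        have := congrArg Complex.re h6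
        rw [Complex.I_sq] at this
        norm_num at this
      · exfalso
        have := congrArg Complex.re h6
        rw [Complex.I_pow_three] at this
        simp at this
    obtain ⟨m, rfl⟩ : ∃ m, k = 4 * m := ⟨k / 4, by omega⟩
    have h8 : X ^ 4 = ι g := by
      have h9 : X ^ 4 = (X * X) * (X * X) := by
        rw [show 4 = 2 + 2 from rfl, pow_add, pow_two]
      rw [h9, hX, sh_sh he hc, ← dg_const (ι := ι) he g]
      congr 1
      funext i
      fin_cases i
      · show (![1, 1, 1, g] : Fin 4 → B) (0 + 3) * (![1, 1, 1, g] : Fin 4 → B) (0 + 2) * _ = g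
        simp
      · show (![1, 1, 1, g] : Fin 4 → B) 0 * (![1, 1, 1, g] : Fin 4 → B) 3 *
          ((![1, 1, 1, g] : Fin 4 → B) 2 * (![1, 1, 1, g] : Fin 4 → B) 1) = g
        simp
      · show (![1, 1, 1, g] : Fin 4 → B) 1 * (![1, 1, 1, g] : Fin 4 → B) 0 *
          ((![1, 1, 1, g] : Fin 4 → B) 3 * (![1, 1, 1, g] : Fin 4 → B) 2) = g
        simp
      · show (![1, 1, 1, g] : Fin 4 → B) 2 * (![1, 1, 1, g] : Fin 4 → B) 1 *
          ((![1, 1, 1, g] : Fin 4 → B) 0 * (![1, 1, 1, g] : Fin 4 → B) 3) = g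
        simp
    rw [pow_mul, h8, ← map_pow, ← hσ]
    exact hg m (by omega)
  · exact h6

theorem sh_mul_ejj (he : MU e) (a : Fin 4 → B) (j : Fin 4) :
    sh e ι a * e j j = ι (a j) * e (j + 1) j := by
  unfold sh
  rw [Finset.sum_mul, Finset.sum_eq_single j]
  · rw [mul_assoc, he.mul, if_pos rfl]
  · intro i _ hi
    rw [mul_assoc, he.mul, if_neg hi, mul_zero]
  · simp

theorem dg_tendsto (x : ℕ → Fin 4 → B) (y : Fin 4 → B)
    (hx : ∀ i, Tendsto (fun n => x n i) atTop (𝓝 (y i))) :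
    Tendsto (fun n => dg e ι (x n)) atTop (𝓝 (dg e ι y)) := by
  unfold dg
  refine tendsto_finset_sum _ fun i _ => ?_
  have hcont : Tendsto (fun n => ι (x n i)) atTop (𝓝 (ι (y i))) := by
    have h1 := hx i
    rw [tendsto_iff_norm_sub_tendsto_zero] at h1 ⊢
    refine squeeze_zero (fun n => norm_nonneg _) (fun n => ?_) h1
    rw [← map_sub]
    exact NonUnitalStarAlgHom.norm_apply_le ι _
  exact hcont.mul_const _

theorem io_mem (he : MU e) (hc : ∀ b i j, ι b * e i j = e i j * ι b) (S : StarSubalgebra ℂ A)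
    (hS : ∀ i j, e i j ∈ S) (b : B) (i j : Fin 4) (hb : ι b * e i j ∈ S) : ι b ∈ S := by
  have h1 : ι b = ∑ k, e k i * (ι b * e i j) * e j k := by
    have h1 : ∀ k, e k i * (ι b * e i j) * e j k = ι b * e k k := by
      intro k
      rw [← mul_assoc, ← hc, mul_assoc (ι b), he.mul, if_pos rfl, mul_assoc, he.mul, if_pos rfl]
    simp only [h1]
    rw [← Finset.mul_sum, he.sum, mul_one]
  rw [h1]
  exact sum_mem fun k _ => mul_mem (mul_mem (hS _ _) hb) (hS _ _)

theorem two_haar_of (hII : II1A)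
    (hH : ∀ (B : Type) [CStarAlgebra B] (σ : B →ₗ[ℂ] ℂ), TW σ → SepT σ → NoAbA B →
      ∃ u : unitary B, HaarN σ (u : B))
    {A : Type} [CStarAlgebra A] {τ : A →ₗ[ℂ] ℂ} (h : TW τ) (hS : SepT τ) (hA : NoAbA A) :
    ∃ u c : unitary A, HaarN τ (u : A) ∧
      GenT τ {(u : A), ((c * u * star c : unitary A) : A)} := by
  obtain ⟨e, he⟩ := partA A τ h hA
  obtain ⟨B, instB, ι, σ, hσ, hTW, hSep, hNo, hiff⟩ := partB A τ e h hS hA he
  have hc : ∀ b i j, ι b * e i j = e i j * ι b := fun b i j => (hiff (ι b)).2 ⟨b, rfl⟩ i j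
  obtain ⟨g, hg⟩ := hH B σ hTW hSep hNo
  obtain ⟨T, hT⟩ := hII B σ hTW hSep hNo
  obtain ⟨ρ, hρ⟩ : ∃ ρ : ℝ, ρ = 1 / (8 * (‖T‖ + 1)) := ⟨_, rfl⟩
  have hT0 := norm_nonneg T
  have hρ0 : 0 < ρ := by rw [hρ]; positivity
  have hρ1 : ρ * (‖T‖ + 1) = 1 / 8 := by rw [hρ]; field_simp
  have hnorm : ∀ z : ℂ, ‖z‖ = ρ → ∀ w : B, ‖w‖ ≤ ‖T‖ + ‖T‖ → ‖z • w‖ ≤ 1 / 4 := by
    intro z hz w hw
    rw [norm_smul, hz]
    nlinarith
  obtain ⟨x, hx⟩ : ∃ x : B, x = (ρ : ℂ) • (T + star T) := ⟨_, rfl⟩
  obtain ⟨y, hy⟩ : ∃ y : B, y = ((ρ : ℂ) * Complex.I) • (star T - T) := ⟨_, rfl⟩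
  have hxs : star x = x := by
    rw [hx, star_smul, star_add, star_star, Complex.star_def, Complex.conj_ofReal, add_comm T]
  have hys : star y = y := by
    rw [hy, star_smul, star_sub, star_star, Complex.star_def, map_mul, Complex.conj_ofReal,
      Complex.conj_I, mul_neg, neg_smul, ← smul_neg, neg_sub]
  have hxn : ‖x‖ ≤ 1 / 4 := by
    rw [hx]
    refine hnorm _ ?_ _ ((norm_add_le _ _).trans (by rw [norm_star]))
    rw [Complex.norm_real, Real.norm_of_nonneg hρ0.le]
  have hyn : ‖y‖ ≤ 1 / 4 := by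
    rw [hy]
    refine hnorm _ ?_ _ ((norm_sub_le _ _).trans (by rw [norm_star]))
    rw [norm_mul, Complex.norm_I, mul_one, Complex.norm_real, Real.norm_of_nonneg hρ0.le]
  obtain ⟨g1, hg1, hg1n⟩ := exists_unitary_near_I x hxs hxn
  obtain ⟨g2, hg2, hg2n⟩ := exists_unitary_near_I y hys hyn
  -- the three unitaries have `g - 1` invertible
  have hIn : ‖(Complex.I - 1 : ℂ)‖ > 1 / 2 := by
    have h1 := Complex.abs_im_le_norm (Complex.I - 1)
    simp at h1
    linarith
  have hI0 : (Complex.I - 1 : ℂ) ≠ 0 := by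
    intro h1
    rw [h1, norm_zero] at hIn
    norm_num at hIn
  have inv1 : ∀ q : unitary B, ‖(q : B) - Complex.I • (1 : B)‖ < 1 / 2 →
      ∃ w, ((q : B) - 1) * w = 1 := by
    intro q hq
    refine exists_inv_sub_one (q : B) (Complex.I - 1) hI0 ?_
    rw [add_sub_cancel]
    exact hq.trans hIn
  obtain ⟨w1, hw1⟩ := inv1 g1 hg1n
  obtain ⟨w2, hw2⟩ := inv1 g2 hg2n
  have hno : ∀ q : unitary B, ‖(q : B)‖ ≤ 1 := by
    intro q
    rcases subsingleton_or_nontrivial B with hs | hs
    · rw [Subsingleton.elim (q : B) 0, norm_zero]; exact zero_le_one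
    · exact (CStarRing.norm_coe_unitary q).le
  obtain ⟨w3, hw3⟩ : ∃ w, (((star (g2 * g1) : unitary B) : B) - 1) * w = 1 := by
    refine exists_inv_sub_one _ (-2) (by norm_num) ?_
    have e1 : ((star (g2 * g1) : unitary B) : B) - (1 + (-2 : ℂ)) • (1 : B) =
        star ((g2 : B) * ((g1 : B) - Complex.I • 1) + Complex.I • ((g2 : B) - Complex.I • 1)) := by
      have e2 : (g2 : B) * ((g1 : B) - Complex.I • 1) + Complex.I • ((g2 : B) - Complex.I • 1) =
          (g2 : B) * (g1 : B) + 1 := by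
        rw [mul_sub, smul_sub, smul_smul, Complex.I_mul_I, mul_smul_comm, mul_one, neg_smul,
          one_smul]
        abel
      rw [e2, star_add, star_one]
      have e3 : ((star (g2 * g1) : unitary B) : B) = star ((g2 : B) * (g1 : B)) := rfl
      rw [e3]
      have e4 : (1 + (-2 : ℂ)) • (1 : B) = -1 := by
        rw [show (1 + (-2 : ℂ)) = -1 by norm_num, neg_smul, one_smul]
      rw [e4, sub_neg_eq_add]
    rw [e1, norm_star]
    have e5 : ‖(-2 : ℂ)‖ = 2 := by norm_num
    rw [e5]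
    calc ‖(g2 : B) * ((g1 : B) - Complex.I • 1) + Complex.I • ((g2 : B) - Complex.I • 1)‖
        ≤ ‖(g2 : B) * ((g1 : B) - Complex.I • 1)‖ + ‖Complex.I • ((g2 : B) - Complex.I • 1)‖ :=
          norm_add_le _ _
      _ ≤ 1 * (1 / 2) + 1 * (1 / 2) := by
          refine add_le_add ?_ ?_
          · exact (norm_mul_le _ _).trans (mul_le_mul (hno g2) hg1n.le (norm_nonneg _) zero_le_one)
          · rw [norm_smul, Complex.norm_I]
            exact mul_le_mul_of_nonneg_left hg2n.le zero_le_one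
      _ < 2 := by norm_num
  -- the elements
  let a : Fin 4 → B := ![1, 1, 1, (g : B)]
  let d : Fin 4 → B := ![1, 1, (g1 : B), (g2 : B) * (g1 : B)]
  have sg : ∀ q : unitary B, star (q : B) * (q : B) = 1 := fun q => Unitary.coe_star_mul_self q
  have gs : ∀ q : unitary B, (q : B) * star (q : B) = 1 := fun q => Unitary.coe_mul_star_self q
  have sgg : star ((g2 : B) * (g1 : B)) * ((g2 : B) * (g1 : B)) = 1 := sg (g2 * g1)
  have ggs : ((g2 : B) * (g1 : B)) * star ((g2 : B) * (g1 : B)) = 1 := gs (g2 * g1)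
  have ha1 : ∀ i, star (a i) * a i = 1 := by
    intro i; fin_cases i <;> simp [a]
  have ha2 : ∀ i, a i * star (a i) = 1 := by
    intro i; fin_cases i <;> simp [a]
  have hd1 : ∀ i, star (d i) * d i = 1 := by
    intro i
    fin_cases i
    · simp [d]
    · simp [d]
    · show star (g1 : B) * (g1 : B) = 1
      exact sg g1
    · exact sgg
  have hd2 : ∀ i, d i * star (d i) = 1 := by
    intro i
    fin_cases i
    · simp [d]
    · simp [d]
    · show (g1 : B) * star (g1 : B) = 1
      exact gs g1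
    · exact ggs
  have hu1 : star (sh e ι a) * sh e ι a = 1 := by
    rw [star_sh_mul_sh he hc]
    simp only [ha1]
    exact dg_one he
  have hu2 : sh e ι a * star (sh e ι a) = 1 := by
    exact sh_mul_star_sh he hc a ha2
  have hc1 : star (dg e ι d) * dg e ι d = 1 := by
    rw [star_dg he hc, dg_mul_dg he hc]
    simp only [hd1]
    exact dg_one he
  have hc2 : dg e ι d * star (dg e ι d) = 1 := by
    rw [star_dg he hc, dg_mul_dg he hc]
    simp only [hd2]
    exact dg_one he
  obtain ⟨uu, huu⟩ : ∃ uu : unitary A, (uu : A) = sh e ι a :=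
    ⟨⟨_, Unitary.mem_iff.2 ⟨hu1, hu2⟩⟩, rfl⟩
  obtain ⟨cc, hcc⟩ : ∃ cc : unitary A, (cc : A) = dg e ι d :=
    ⟨⟨_, Unitary.mem_iff.2 ⟨hc1, hc2⟩⟩, rfl⟩
  refine ⟨uu, cc, ?_, ?_⟩
  · rw [huu]
    exact haar_sh h he hc hσ (g : B) hg
  obtain ⟨v, hv⟩ : ∃ v : A, v = ((cc * uu * star cc : unitary A) : A) := ⟨_, rfl⟩
  have hv1 : v = sh e ι (fun i => d (i + 1) * a i * star (d i)) := by
    rw [hv]
    show (cc : A) * (uu : A) * star (cc : A) = _
    rw [hcc, huu, star_dg he hc, dg_mul_sh he hc, sh_mul_dg he hc]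
  rw [← hv]
  obtain ⟨f, hf⟩ : ∃ f : Fin 4 → unitary B, f = ![1, g1, g2, star (g2 * g1)] := ⟨_, rfl⟩
  have hD : star (uu : A) * v = dg e ι (fun i => (f i : B)) := by
    rw [huu, hv1, star_sh_mul_sh he hc]
    congr 1
    funext i
    rw [hf]
    fin_cases i
    · show star (1 : B) * ((1 : B) * 1 * star (1 : B)) = 1
      simp
    · show star (1 : B) * ((g1 : B) * 1 * star (1 : B)) = (g1 : B)
      simp
    · show star (1 : B) * ((g2 : B) * (g1 : B) * 1 * star (g1 : B)) = (g2 : B)
      rw [star_one, one_mul, mul_one, mul_assoc, gs, mul_one]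
    · show star (g : B) * ((1 : B) * (g : B) * star ((g2 : B) * (g1 : B))) =
        star ((g2 : B) * (g1 : B))
      rw [one_mul, ← mul_assoc, sg, one_mul]
  obtain ⟨S, hS1, hSW, hS2⟩ := exists_closure h (StarAlgebra.adjoin ℂ {(uu : A), v})
  have huS : (uu : A) ∈ S := hS2 (StarAlgebra.subset_adjoin ℂ _ (Set.mem_insert _ _))
  have hvS : v ∈ S := hS2 (StarAlgebra.subset_adjoin ℂ _ (Set.mem_insert_of_mem _ rfl))
  have hDS : star (uu : A) * v ∈ S := mul_mem (star_mem huS) hvS
  have hcl := isClosed_of_isW h S hSW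
  -- averages
  have hav : ∀ i : Fin 4, Tendsto (fun N : ℕ => ((N : ℂ))⁻¹ • ∑ k ∈ Finset.range N, (f i : B) ^ k)
      atTop (𝓝 (if i = 0 then 1 else 0)) := by
    intro i
    rw [hf]
    fin_cases i
    · show Tendsto (fun N : ℕ => ((N : ℂ))⁻¹ • ∑ k ∈ Finset.range N, (1 : B) ^ k) atTop (𝓝 1)
      refine tendsto_const_nhds.congr' ?_
      filter_upwards [eventually_gt_atTop 0] with N hN
      have hN' : (N : ℂ) ≠ 0 := by exact_mod_cast hN.ne'
      simp only [one_pow, Finset.sum_const, Finset.card_range]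
      rw [← Nat.cast_smul_eq_nsmul ℂ, smul_smul, inv_mul_cancel₀ hN', one_smul]
    · exact avg_tendsto g1 w1 hw1
    · exact avg_tendsto g2 w2 hw2
    · exact avg_tendsto (star (g2 * g1)) w3 hw3
  have hE : dg e ι (fun i => if i = 0 then (1 : B) else 0) = e 0 0 := by
    unfold dg
    rw [Finset.sum_eq_single 0]
    · simp
    · intro i _ hi
      simp [hi]
    · simp
  have he00 : e 0 0 ∈ S := by
    rw [← hE]
    refine hcl.mem_of_tendsto (dg_tendsto _ _ hav) (Eventually.of_forall fun N => ?_)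
    have e1 : dg e ι (fun i => ((N : ℂ))⁻¹ • ∑ k ∈ Finset.range N, (f i : B) ^ k) =
        ((N : ℂ))⁻¹ • ∑ k ∈ Finset.range N, (star (uu : A) * v) ^ k := by
      rw [dg_smul, dg_sum]
      congr 1
      refine Finset.sum_congr rfl fun k _ => ?_
      rw [hD, dg_pow he hc]
    rw [e1]
    exact S.smul_mem (sum_mem fun k _ => pow_mem hDS k) _
  have step : ∀ j : Fin 4, a j = 1 → e j j ∈ S → e (j + 1) j ∈ S := by
    intro j hj hjS
    have e1 := sh_mul_ejj (ι := ι) he a j
    rw [hj, map_one, one_mul, ← huu] at e1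
    rw [← e1]
    exact mul_mem huS hjS
  have step2 : ∀ i j : Fin 4, e i j ∈ S → e i i ∈ S := by
    intro i j hij
    have e1 : e i j * star (e i j) = e i i := by rw [he.star, he.mul, if_pos rfl]
    rw [← e1]
    exact mul_mem hij (star_mem hij)
  have he10 : e 1 0 ∈ S := step 0 rfl he00
  have he11 : e 1 1 ∈ S := step2 _ _ he10
  have he21 : e 2 1 ∈ S := step 1 rfl he11
  have he22 : e 2 2 ∈ S := step2 _ _ he21
  have he32 : e 3 2 ∈ S := step 2 rfl he22
  have he20 : e 2 0 ∈ S := by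
    have e1 : e 2 1 * e 1 0 = e 2 0 := by rw [he.mul, if_pos rfl]
    rw [← e1]
    exact mul_mem he21 he10
  have he30 : e 3 0 ∈ S := by
    have e1 : e 3 2 * e 2 0 = e 3 0 := by rw [he.mul, if_pos rfl]
    rw [← e1]
    exact mul_mem he32 he20
  have hei0 : ∀ i : Fin 4, e i 0 ∈ S := by
    intro i
    fin_cases i
    · exact he00
    · exact he10
    · exact he20
    · exact he30
  have heS : ∀ i j : Fin 4, e i j ∈ S := by
    intro i j
    have e1 : e i 0 * star (e j 0) = e i j := by rw [he.star, he.mul, if_pos rfl]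
    rw [← e1]
    exact mul_mem (hei0 i) (star_mem (hei0 j))
  have hg1S : ι (g1 : B) ∈ S := by
    refine io_mem he hc S heS _ 2 1 ?_
    have e1 := sh_mul_ejj (ι := ι) he (fun i => d (i + 1) * a i * star (d i)) 1
    rw [← hv1] at e1
    have e2 : d (1 + 1) * a 1 * star (d 1) = (g1 : B) := by
      show (g1 : B) * 1 * star (1 : B) = (g1 : B)
      simp
    simp only [e2] at e1
    have e3 : (1 : Fin 4) + 1 = 2 := rfl
    rw [e3] at e1
    rw [← e1]
    exact mul_mem hvS he11
  have hg2S : ι (g2 : B) ∈ S := by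
    refine io_mem he hc S heS _ 3 2 ?_
    have e1 := sh_mul_ejj (ι := ι) he (fun i => d (i + 1) * a i * star (d i)) 2
    rw [← hv1] at e1
    have e2 : d (2 + 1) * a 2 * star (d 2) = (g2 : B) := by
      show (g2 : B) * (g1 : B) * 1 * star (g1 : B) = (g2 : B)
      rw [mul_one, mul_assoc, gs, mul_one]
    simp only [e2] at e1
    have e3 : (2 : Fin 4) + 1 = 3 := rfl
    rw [e3] at e1
    rw [← e1]
    exact mul_mem hvS he22
  have hreal : ∀ (q : unitary B) (z : B), (q : B) + star (q : B) = (2 : ℂ) • z → ι (q : B) ∈ S →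
      ι z ∈ S := by
    intro q z hz hq
    have e1 : ι z = (1 / 2 : ℂ) • (ι (q : B) + star (ι (q : B))) := by
      rw [← map_star, ← map_add, hz, ← map_smul, smul_smul]
      norm_num
    rw [e1]
    exact S.smul_mem (add_mem hq (star_mem hq)) _
  have hxS : ι x ∈ S := hreal g1 x hg1 hg1S
  have hyS : ι y ∈ S := hreal g2 y hg2 hg2S
  have hTS : ι T ∈ S := by
    have hρc : (ρ : ℂ) ≠ 0 := by exact_mod_cast hρ0.ne'
    have e1 : T = (1 / (2 * (ρ : ℂ))) • (x + Complex.I • y) := by
      have e2 : x + Complex.I • y = (2 * (ρ : ℂ)) • T := by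
        have e3 : Complex.I * ((ρ : ℂ) * Complex.I) = -(ρ : ℂ) := by
          linear_combination (ρ : ℂ) * Complex.I_mul_I
        rw [hx, hy, smul_smul, e3]
        module
      rw [e2, smul_smul, one_div, inv_mul_cancel₀ (by simpa using hρc), one_smul]
    rw [e1, map_smul, map_add, map_smul]
    exact S.smul_mem (add_mem hxS (S.smul_mem hyS _)) _
  have hn2 : ∀ z : B, n2 τ (ι z) = n2 σ z := by
    intro z
    unfold n2
    rw [hσ, map_mul ι, map_star ι]
  have hBS : ∀ b : B, ι b ∈ S := by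
    intro b
    refine hSW _ fun ε hε => ?_
    obtain ⟨z, hz, hbz⟩ := hT b ε hε
    have hle : StarAlgebra.adjoin ℂ {T} ≤ S.comap ι := by
      rw [StarAlgebra.adjoin_le_iff]
      intro w hw
      rw [Set.mem_singleton_iff.1 hw]
      exact hTS
    refine ⟨ι z, hle hz, ?_⟩
    rw [← map_sub, hn2]
    exact hbz
  intro z
  rw [← hS1]
  show z ∈ S
  rw [← he.expand z]
  refine sum_mem fun i _ => sum_mem fun j _ => mul_mem ?_ (heS i j)
  obtain ⟨b, hb⟩ := (hiff (co e z i j)).1 (fun k l => he.co_comm z i j k l)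
  rw [← hb]
  exact hBS b

/-- Every separable II_1 algebra is generated by two unitarily conjugate Haar unitaries. -/
theorem two_haar {A : Type} [CStarAlgebra A] {τ : A →ₗ[ℂ] ℂ} (h : TW τ) (hS : SepT τ)
    (hA : NoAbA A) : ∃ u c : unitary A, HaarN τ (u : A) ∧
      GenT τ {(u : A), ((c * u * star c : unitary A) : A)} :=
  two_haar_of (ii1a_of Pool.Agent.H270G.freeness2)
    (fun _ _ _ h1 h2 h3 => exists_haar h1 h2 h3) h hS hA

end Pool.Agent.H170R5.SC
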