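import Mathlib
import Pool.Agent.Helper467.FP.P_tau_bounds
import Pool.Agent.Helper467.FP.P_n2_mul_le

/-! A unitary whose first two moments are small is close to a unitary of trace zero. -/

set_option autoImplicit false

open scoped ComplexOrder Topology
open Filter

noncomputable section

namespace Pool.Agent.H170R5.SC

open Pool.Agent.H467F

variable {A : Type} [CStarAlgebra A] {τ : A →ₗ[ℂ] ℂ}

theorem norm_one_le' (A : Type) [CStarAlgebra A] : ‖(1 : A)‖ ≤ 1 := by
  rcases subsingleton_or_nontrivial A with h | h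
  · have : (1 : A) = 0 := Subsingleton.elim _ _
    rw [this]; simp
  · exact (CStarRing.norm_one (E := A)).le

theorem norm_uni_le (V : unitary A) : ‖(V : A)‖ ≤ 1 := by
  have h1 : ‖star (V : A) * (V : A)‖ = ‖(V : A)‖ * ‖(V : A)‖ := CStarRing.norm_star_mul_self
  rw [Unitary.coe_star_mul_self V] at h1
  have h2 := norm_one_le' A
  nlinarith [norm_nonneg (V : A)]

theorem TWfin (h : TW τ) {x : A} (hx : star x * x = 1) : x * star x = 1 := by
  have h1 : 1 - x * star x = 0 := by
    refine h.faithful _ ?_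
    have e1 : star (1 - x * star x) * (1 - x * star x) = 1 - x * star x := by
      rw [star_sub, star_one, star_mul, star_star]
      have e2 : x * star x * (x * star x) = x * star x := by
        calc x * star x * (x * star x) = x * (star x * x) * star x := by simp only [mul_assoc]
          _ = _ := by rw [hx, mul_one]
      rw [sub_mul, one_mul, mul_sub, mul_one, e2]
      abel
    rw [e1, map_sub, h.comm x, hx, sub_self]
  exact (sub_eq_zero.1 h1).symm

theorem mobius (h : TW τ) (V : unitary A) (r : ℝ) (hr0 : 0 < r) (hr : r ≤ 1 / 32)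
    (h1 : ‖τ (V : A)‖ ≤ r / 2) (h2 : ‖τ ((V : A) * V)‖ ≤ 1 / 4) :
    ∃ W : unitary A, τ (W : A) = 0 ∧ ‖(W : A) - V‖ ≤ 4 * r := by
  have hτ : ∀ x : A, ‖τ x‖ ≤ ‖x‖ := fun x => ((tau_bounds h).1 x).trans ((tau_bounds h).2 x)
  have hV := norm_uni_le V
  have hVV : ‖(V : A) * V‖ ≤ 1 :=
    (norm_mul_le _ _).trans (by nlinarith [norm_nonneg (V : A)])
  obtain ⟨R, hRd⟩ : ∃ R : ℂ → A, ∀ z, R z = Ring.inverse (1 - star z • (V : A)) :=
    ⟨_, fun _ => rfl⟩
  have hun : ∀ z : ℂ, ‖z‖ ≤ r → IsUnit (1 - star z • (V : A)) := by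
    intro z hz
    refine isUnit_one_sub_of_norm_lt_one ?_
    rw [norm_smul, norm_star]
    nlinarith [norm_nonneg z, norm_nonneg (V : A)]
  have hR1 : ∀ z : ℂ, ‖z‖ ≤ r → R z = 1 + star z • ((V : A) * R z) := by
    intro z hz
    have e1 := Ring.mul_inverse_cancel _ (hun z hz)
    rw [← hRd, sub_mul, one_mul, smul_mul_assoc] at e1
    rw [← e1]; abel
  have hR1' : ∀ z : ℂ, ‖z‖ ≤ r → (1 - star z • (V : A)) * R z = 1 := by
    intro z hz
    rw [hRd]
    exact Ring.mul_inverse_cancel _ (hun z hz)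
  have hR2 : ∀ z : ℂ, ‖z‖ ≤ r → R z * (1 - star z • (V : A)) = 1 := by
    intro z hz
    rw [hRd]
    exact Ring.inverse_mul_cancel _ (hun z hz)
  have hRn : ∀ z : ℂ, ‖z‖ ≤ r → ‖R z‖ ≤ 32 / 31 := by
    intro z hz
    have e1 : ‖R z‖ ≤ 1 + ‖z‖ * (1 * ‖R z‖) := by
      conv_lhs => rw [hR1 z hz]
      refine (norm_add_le _ _).trans (add_le_add (norm_one_le' A) ?_)
      rw [norm_smul, norm_star]
      refine mul_le_mul_of_nonneg_left ?_ (norm_nonneg _)
      exact (norm_mul_le _ _).trans (mul_le_mul_of_nonneg_right hV (norm_nonneg _))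
    nlinarith [norm_nonneg (R z), norm_nonneg z]
  have hVR : ∀ z : ℂ, ‖z‖ ≤ r → ‖τ ((V : A) * R z)‖ ≤ 32 / 31 := by
    intro z hz
    refine (hτ _).trans ((norm_mul_le _ _).trans ?_)
    nlinarith [norm_nonneg (R z), hRn z hz, norm_nonneg (V : A)]
  -- the map
  obtain ⟨φ, hφ⟩ : ∃ φ : ℂ → ℂ, ∀ z, φ z = (1 - ((‖z‖ ^ 2 : ℝ) : ℂ)) * τ ((V : A) * R z) :=
    ⟨_, fun _ => rfl⟩
  have hco : ∀ z : ℂ, ‖z‖ ≤ r → ‖(1 - ((‖z‖ ^ 2 : ℝ) : ℂ))‖ ≤ 1 := by
    intro z hz
    have e1 : (1 - ((‖z‖ ^ 2 : ℝ) : ℂ)) = (((1 - ‖z‖ ^ 2 : ℝ)) : ℂ) := by push_cast; ring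
    rw [e1, Complex.norm_real, Real.norm_eq_abs, abs_le]
    constructor <;> nlinarith [norm_nonneg z]
  have hmaps : Set.MapsTo φ (Metric.closedBall (0 : ℂ) r) (Metric.closedBall (0 : ℂ) r) := by
    intro z hz
    rw [mem_closedBall_zero_iff] at hz ⊢
    rw [hφ, norm_mul]
    have e1 : (V : A) * R z = (V : A) + star z • ((V : A) * V) +
        (star z * star z) • ((V : A) * V * ((V : A) * R z)) := by
      have e2 : (V : A) * R z = (V : A) * (1 + star z • ((V : A) * (1 + star z • ((V : A) * R z)))) := by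
        rw [← hR1 z hz, ← hR1 z hz]
      conv_lhs => rw [e2]
      simp only [mul_add, mul_one, mul_smul_comm, smul_add, smul_smul, mul_assoc]
      abel
    have e3 : ‖τ ((V : A) * R z)‖ ≤ r / 2 + r * (1 / 4) + r * r * (32 / 31) := by
      rw [e1, map_add, map_add, map_smul, map_smul]
      refine (norm_add₃_le).trans ?_
      refine add_le_add (add_le_add h1 ?_) ?_
      · rw [norm_smul, norm_star]
        exact mul_le_mul hz h2 (norm_nonneg _) hr0.le
      · rw [norm_smul, norm_mul, norm_star]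
        refine mul_le_mul (mul_le_mul hz hz (norm_nonneg _) hr0.le) ?_ (norm_nonneg _) (by positivity)
        refine (hτ _).trans ((norm_mul_le _ _).trans ?_)
        have e4 : ‖(V : A) * R z‖ ≤ 32 / 31 := (norm_mul_le _ _).trans (by
          nlinarith [norm_nonneg (R z), hRn z hz, norm_nonneg (V : A)])
        nlinarith [norm_nonneg ((V : A) * R z), norm_nonneg ((V : A) * V)]
    have e5 := hco z hz
    calc ‖(1 - ((‖z‖ ^ 2 : ℝ) : ℂ))‖ * ‖τ ((V : A) * R z)‖
        ≤ 1 * (r / 2 + r * (1 / 4) + r * r * (32 / 31)) :=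
          mul_le_mul e5 e3 (norm_nonneg _) zero_le_one
      _ ≤ r := by nlinarith
  have hlip : ∀ z w : ℂ, ‖z‖ ≤ r → ‖w‖ ≤ r → ‖φ z - φ w‖ ≤ (1 / 2) * ‖z - w‖ := by
    intro z w hz hw
    have e1 : (V : A) * R z - (V : A) * R w = (star z - star w) • ((V : A) * (R z * V * R w)) := by
      have e2 : R z - R w = (star z - star w) • (R z * V * R w) := by
        have e3 : R z - R w = R z * ((1 - star w • (V : A)) * R w) -
            R z * (1 - star z • (V : A)) * R w := by
          rw [hR1' w hw, hR2 z hz, mul_one, one_mul]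
        rw [e3]
        simp only [mul_sub, sub_mul, mul_one, one_mul, mul_smul_comm, smul_mul_assoc, sub_smul,
          mul_assoc]
        abel
      rw [← mul_sub, e2, mul_smul_comm]
    have hcm : ∀ z : ℂ, ‖z‖ ≤ r → R z * V = V * R z := by
      intro z hz
      have e3 : (1 - star z • (V : A)) * V = V * (1 - star z • (V : A)) := by
        rw [sub_mul, mul_sub, one_mul, mul_one, smul_mul_assoc, mul_smul_comm]
      calc R z * V = R z * V * ((1 - star z • (V : A)) * R z) := by rw [hR1' z hz, mul_one]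
        _ = R z * ((V : A) * (1 - star z • (V : A))) * R z := by simp only [mul_assoc]
        _ = (R z * (1 - star z • (V : A))) * V * R z := by rw [← e3]; simp only [mul_assoc]
        _ = V * R z := by rw [hR2 z hz, one_mul]
    have e4 : (V : A) * (R z * V * R w) = (V : A) * V + star w • ((V : A) * V * (V * R w)) +
        star z • ((V : A) * V * (V * R z * R w)) := by
      rw [hcm z hz]
      have e5 : (V : A) * (V * R z * R w) = (V : A) * V * (1 + star z • ((V : A) * R z)) * R w := by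
        rw [← hR1 z hz]; simp only [mul_assoc]
      have e6 : (V : A) * V * R w = (V : A) * V * (1 + star w • ((V : A) * R w)) := by
        rw [← hR1 w hw]
      rw [e5, mul_add, mul_one, add_mul, e6]
      simp only [mul_add, mul_one, mul_smul_comm, smul_mul_assoc, mul_assoc]
    have e7 : ‖τ ((V : A) * (R z * V * R w))‖ ≤ 1 / 4 + r * (32 / 31) + r * (32 / 31 * (32 / 31)) := by
      rw [e4, map_add, map_add, map_smul, map_smul]
      refine (norm_add₃_le).trans ?_
      have e8 : ∀ z : ℂ, ‖z‖ ≤ r → ‖(V : A) * R z‖ ≤ 32 / 31 := fun z hz =>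
        (norm_mul_le _ _).trans (by nlinarith [norm_nonneg (R z), hRn z hz, norm_nonneg (V : A)])
      refine add_le_add (add_le_add h2 ?_) ?_
      · rw [norm_smul, norm_star]
        refine mul_le_mul hw ?_ (norm_nonneg _) hr0.le
        refine (hτ _).trans ((norm_mul_le _ _).trans ?_)
        have := e8 w hw
        nlinarith [norm_nonneg ((V : A) * R w), norm_nonneg ((V : A) * V)]
      · rw [norm_smul, norm_star]
        refine mul_le_mul hz ?_ (norm_nonneg _) hr0.le
        refine (hτ _).trans ((norm_mul_le _ _).trans ?_)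
        have e9 : ‖(V : A) * R z * R w‖ ≤ 32 / 31 * (32 / 31) :=
          (norm_mul_le _ _).trans (mul_le_mul (e8 z hz) (hRn w hw) (norm_nonneg _) (by norm_num))
        nlinarith [norm_nonneg ((V : A) * R z * R w), norm_nonneg ((V : A) * V)]
    have e10 : φ z - φ w = (1 - ((‖z‖ ^ 2 : ℝ) : ℂ)) * (τ ((V : A) * R z) - τ ((V : A) * R w)) +
        (((‖w‖ ^ 2 - ‖z‖ ^ 2 : ℝ)) : ℂ) * τ ((V : A) * R w) := by
      rw [hφ, hφ]; push_cast; ring
    have e11 : ‖(((‖w‖ ^ 2 - ‖z‖ ^ 2 : ℝ)) : ℂ)‖ ≤ 2 * r * ‖z - w‖ := by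
      rw [Complex.norm_real, Real.norm_eq_abs]
      have e12 : ‖w‖ ^ 2 - ‖z‖ ^ 2 = (‖w‖ - ‖z‖) * (‖w‖ + ‖z‖) := by ring
      rw [e12, abs_mul]
      have e13 := abs_norm_sub_norm_le w z
      rw [norm_sub_rev] at e13
      have e14 : |‖w‖ + ‖z‖| ≤ 2 * r := by
        rw [abs_of_nonneg (by positivity)]; linarith
      calc |‖w‖ - ‖z‖| * |‖w‖ + ‖z‖| ≤ ‖z - w‖ * (2 * r) :=
            mul_le_mul e13 e14 (abs_nonneg _) (norm_nonneg _)
        _ = _ := by ring
    have e15 : ‖τ ((V : A) * R z) - τ ((V : A) * R w)‖ ≤ ‖z - w‖ * (1 / 4 + r * (32 / 31) +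
        r * (32 / 31 * (32 / 31))) := by
      rw [← map_sub, e1, map_smul, norm_smul, ← star_sub, norm_star]
      exact mul_le_mul_of_nonneg_left e7 (norm_nonneg _)
    rw [e10]
    refine (norm_add_le _ _).trans ?_
    rw [norm_mul, norm_mul]
    have e16 := hco z hz
    have e17 := hVR w hw
    have e18 : ‖(1 - ((‖z‖ ^ 2 : ℝ) : ℂ))‖ * ‖τ ((V : A) * R z) - τ ((V : A) * R w)‖ ≤
        1 * (‖z - w‖ * (1 / 4 + r * (32 / 31) + r * (32 / 31 * (32 / 31)))) :=
      mul_le_mul e16 e15 (norm_nonneg _) zero_le_one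
    have e19 : ‖(((‖w‖ ^ 2 - ‖z‖ ^ 2 : ℝ)) : ℂ)‖ * ‖τ ((V : A) * R w)‖ ≤
        (2 * r * ‖z - w‖) * (32 / 31) := mul_le_mul e11 e17 (norm_nonneg _) (by positivity)
    have e20 := norm_nonneg (z - w)
    have e21 : r * ‖z - w‖ ≤ 1 / 32 * ‖z - w‖ := mul_le_mul_of_nonneg_right hr e20
    nlinarith
  have hK : ContractingWith (1 / 2 : NNReal)
      (Set.MapsTo.restrict φ (Metric.closedBall (0 : ℂ) r) (Metric.closedBall (0 : ℂ) r) hmaps) := by
    refine ⟨by rw [← NNReal.coe_lt_coe]; norm_num, ?_⟩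
    refine LipschitzWith.of_dist_le_mul fun z w => ?_
    have := hlip z w (mem_closedBall_zero_iff.1 z.2) (mem_closedBall_zero_iff.1 w.2)
    rw [Subtype.dist_eq, Subtype.dist_eq, dist_eq_norm, dist_eq_norm]
    simpa using this
  obtain ⟨z, hzs, hz, -⟩ := hK.exists_fixedPoint' (Metric.isClosed_closedBall.isComplete) hmaps
    (Metric.mem_closedBall_self hr0.le) (edist_ne_top 0 (φ 0))
  rw [mem_closedBall_zero_iff] at hzs
  have hzz : star z * z = ((‖z‖ ^ 2 : ℝ) : ℂ) := by
    rw [Complex.star_def, ← Complex.normSq_eq_conj_mul_self, Complex.normSq_eq_norm_sq]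
  have hs : star (R z) * (1 - z • star (V : A)) = 1 := by
    have e1 := congrArg star (hR1' z hzs)
    rw [star_mul, star_sub, star_smul, star_star, star_one] at e1
    exact e1
  have hU1 : star (((V : A) - z • 1) * R z) * (((V : A) - z • 1) * R z) = 1 := by
    rw [star_mul, star_sub, star_smul, star_one]
    have e1 : (star (V : A) - star z • 1) * ((V : A) - z • 1) =
        (1 - z • star (V : A)) * (1 - star z • (V : A)) := by
      have e2 := Unitary.coe_star_mul_self V
      simp only [mul_sub, sub_mul, mul_one, one_mul, mul_smul_comm, smul_mul_assoc, e2, smul_sub,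
        smul_smul]
      rw [mul_comm (star z) z]
      abel
    calc star (R z) * (star (V : A) - star z • 1) * (((V : A) - z • 1) * R z)
        = star (R z) * ((star (V : A) - star z • 1) * ((V : A) - z • 1)) * R z := by
          simp only [mul_assoc]
      _ = (star (R z) * (1 - z • star (V : A))) * ((1 - star z • (V : A)) * R z) := by
          rw [e1]; simp only [mul_assoc]
      _ = 1 := by rw [hs, hR1' z hzs, one_mul]
  refine ⟨⟨((V : A) - z • 1) * R z, Unitary.mem_iff.2 ⟨hU1, TWfin h hU1⟩⟩, ?_, ?_⟩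
  · show τ (((V : A) - z • 1) * R z) = 0
    have e1 : τ (R z) = 1 + star z * τ ((V : A) * R z) := by
      conv_lhs => rw [hR1 z hzs]
      rw [map_add, h.one, map_smul, smul_eq_mul]
    have e2 : φ z = z := hz
    rw [hφ] at e2
    rw [sub_mul, smul_mul_assoc, one_mul, map_sub, map_smul, smul_eq_mul, e1]
    linear_combination e2 - (τ ((V : A) * R z)) * hzz
  · show ‖((V : A) - z • 1) * R z - V‖ ≤ 4 * r
    have e1 : ((V : A) - z • 1) * R z - V = (star z • ((V : A) * V) - z • 1) * R z := by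
      calc ((V : A) - z • 1) * R z - V
          = ((V : A) - z • 1) * R z - (V : A) * ((1 - star z • (V : A)) * R z) := by
            rw [hR1' z hzs, mul_one]
        _ = (((V : A) - z • 1) - (V : A) * (1 - star z • (V : A))) * R z := by
            rw [sub_mul _ ((V : A) * (1 - star z • (V : A))), mul_assoc]
        _ = _ := by
            congr 1
            rw [mul_sub, mul_one, mul_smul_comm]
            abel
    rw [e1]
    have e3 : ‖star z • ((V : A) * V) - z • 1‖ ≤ 2 * r := by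
      refine (norm_sub_le _ _).trans ?_
      rw [norm_smul, norm_smul, norm_star]
      have := norm_one_le' A
      nlinarith [norm_nonneg z, norm_nonneg ((V : A) * V), norm_nonneg (1 : A)]
    calc ‖(star z • ((V : A) * V) - z • 1) * R z‖ ≤ 2 * r * (32 / 31) :=
          (norm_mul_le _ _).trans (mul_le_mul e3 (hRn z hzs) (norm_nonneg _) (by positivity))
      _ ≤ 4 * r := by nlinarith

end Pool.Agent.H170R5.SC
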