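import Mathlib
import Pool.Agent.H170R5.SC.Gen2

/-! Downward Löwenheim–Skolem: a finite set of a tracial von Neumann algebra without abelian
projections lies in a separable von Neumann subalgebra without abelian projections. -/

set_option autoImplicit false

open scoped ComplexOrder Topology
open Filter

noncomputable section

namespace Pool.Agent.H170R5.SC

open Pool.Agent.H467F Pool.Agent.H735G Pool.Agent.H594R3.GEN

variable {A : Type} [CStarAlgebra A] {τ : A →ₗ[ℂ] ℂ}

/-- one closing step -/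
def stp (g : ℕ → A → A) (D : Set A) : Set A :=
  D ∪ (star '' D ∪ (Set.image2 (· + ·) D D ∪ (Set.image2 (· * ·) D D ∪ ⋃ m, g m '' D)))

/-- iteration -/
def its (g : ℕ → A → A) (C : Set A) : ℕ → Set A
  | 0 => C
  | n + 1 => stp g (its g C n)

theorem its_countable (g : ℕ → A → A) (C : Set A) (hC : C.Countable) (n : ℕ) :
    (its g C n).Countable := by
  induction n with
  | zero => exact hC
  | succ n ih =>
    exact ih.union ((ih.image _).union ((ih.image2 ih _).union ((ih.image2 ih _).union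
      (Set.countable_iUnion fun m => ih.image _))))

theorem its_mono (g : ℕ → A → A) (C : Set A) : Monotone (its g C) :=
  monotone_nat_of_le_succ fun _ => Set.subset_union_left

theorem exists_countable (g : ℕ → A → A) (C : Set A) (hC : C.Countable) :
    ∃ D : Set A, D.Countable ∧ C ⊆ D ∧ (∀ x ∈ D, star x ∈ D) ∧
      (∀ x ∈ D, ∀ y ∈ D, x + y ∈ D) ∧ (∀ x ∈ D, ∀ y ∈ D, x * y ∈ D) ∧
      ∀ m, ∀ x ∈ D, g m x ∈ D := by
  refine ⟨⋃ n, its g C n, Set.countable_iUnion (its_countable g C hC),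
    Set.subset_iUnion (its g C) 0, ?_, ?_, ?_, ?_⟩
  · intro x hx
    obtain ⟨n, hn⟩ := Set.mem_iUnion.1 hx
    exact Set.mem_iUnion.2 ⟨n + 1, Or.inr (Or.inl ⟨x, hn, rfl⟩)⟩
  · intro x hx y hy
    obtain ⟨n, hn⟩ := Set.mem_iUnion.1 hx
    obtain ⟨m, hm⟩ := Set.mem_iUnion.1 hy
    exact Set.mem_iUnion.2 ⟨max n m + 1, Or.inr (Or.inr (Or.inl
      ⟨x, its_mono g C (le_max_left _ _) hn, y, its_mono g C (le_max_right _ _) hm, rfl⟩))⟩
  · intro x hx y hy
    obtain ⟨n, hn⟩ := Set.mem_iUnion.1 hx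
    obtain ⟨m, hm⟩ := Set.mem_iUnion.1 hy
    exact Set.mem_iUnion.2 ⟨max n m + 1, Or.inr (Or.inr (Or.inr (Or.inl
      ⟨x, its_mono g C (le_max_left _ _) hn, y, its_mono g C (le_max_right _ _) hm, rfl⟩)))⟩
  · intro m x hx
    obtain ⟨n, hn⟩ := Set.mem_iUnion.1 hx
    exact Set.mem_iUnion.2 ⟨n + 1, Or.inr (Or.inr (Or.inr (Or.inr
      (Set.mem_iUnion.2 ⟨m, x, hn, rfl⟩))))⟩

theorem adj_le (h : TW τ) (D : Set A) (hst : ∀ x ∈ D, star x ∈ D)
    (hadd : ∀ x ∈ D, ∀ y ∈ D, x + y ∈ D) (hmul : ∀ x ∈ D, ∀ y ∈ D, x * y ∈ D)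
    (hsc : ∀ r : ℂ, algebraMap ℂ A r ∈ Cl τ D) (x : A) (hx : x ∈ StarAlgebra.adjoin ℂ D) :
    x ∈ Cl τ D := by
  induction hx using StarAlgebra.adjoin_induction with
  | mem x hx => exact fun ε hε => ⟨x, hx, by rw [sub_self, n2_zero]; exact hε⟩
  | algebraMap r => exact hsc r
  | add x y _ _ hx hy =>
    intro ε hε
    obtain ⟨a, ha, h1⟩ := hx (ε / 2) (by linarith)
    obtain ⟨b, hb, h2⟩ := hy (ε / 2) (by linarith)
    refine ⟨a + b, hadd a ha b hb, ?_⟩
    have e : x + y - (a + b) = (x - a) + (y - b) := by abel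
    rw [e]
    exact (h.n2_add_le _ _).trans_lt (by linarith)
  | mul x y _ _ hx hy =>
    intro ε hε
    have hy0 : 0 < ‖y‖ + 1 := by positivity
    obtain ⟨a, ha, h1⟩ := hx (ε / 2 / (‖y‖ + 1)) (by positivity)
    have ha0 : 0 < ‖a‖ + 1 := by positivity
    obtain ⟨b, hb, h2⟩ := hy (ε / 2 / (‖a‖ + 1)) (by positivity)
    refine ⟨a * b, hmul a ha b hb, ?_⟩
    have e : x * y - a * b = (x - a) * y + a * (y - b) := by noncomm_ring
    rw [e]
    have h3 := (n2_mul_le h y (x - a)).2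
    have h4 := (n2_mul_le h a (y - b)).1
    rw [lt_div_iff₀ hy0] at h1
    rw [lt_div_iff₀ ha0] at h2
    have h5 : n2 τ (x - a) * ‖y‖ ≤ n2 τ (x - a) * (‖y‖ + 1) :=
      mul_le_mul_of_nonneg_left (by linarith) (n2_nonneg _ _)
    have h6 : ‖a‖ * n2 τ (y - b) ≤ n2 τ (y - b) * (‖a‖ + 1) := by
      have := n2_nonneg τ (y - b)
      nlinarith
    exact (h.n2_add_le _ _).trans_lt (by linarith)
  | star x _ hx =>
    intro ε hε
    obtain ⟨a, ha, h1⟩ := hx ε hε
    refine ⟨star a, hst a ha, ?_⟩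
    rw [← star_sub, h.n2_star]
    exact h1

theorem proj_norm_le (p : A) (hp : star p = p) (hpp : p * p = p) : ‖p‖ ≤ 1 := by
  have h1 : ‖star p * p‖ = ‖p‖ * ‖p‖ := CStarRing.norm_star_mul_self
  rw [hp, hpp] at h1
  by_contra h2
  push Not at h2
  nlinarith

theorem pi_norm_le (v : A) (hv : v * star v * v = v) : ‖v‖ ≤ 1 := by
  have h1 : ‖star v * v‖ = ‖v‖ * ‖v‖ := CStarRing.norm_star_mul_self
  have h2 : ‖star v * v‖ ≤ 1 := by
    refine proj_norm_le _ (by rw [star_mul, star_star]) ?_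
    rw [mul_assoc, ← mul_assoc v, hv]
  rw [h1] at h2
  nlinarith [norm_nonneg v]

theorem n2_sandwich (h : TW τ) (x z y : A) (hx : ‖x‖ ≤ 1) (hy : ‖y‖ ≤ 1) :
    n2 τ (x * z * y) ≤ n2 τ z := by
  have h1 := (n2_mul_le h y (x * z)).2
  have h2 := (n2_mul_le h x z).1
  have h3 := n2_nonneg τ z
  have h4 := n2_nonneg τ (x * z)
  nlinarith

theorem corner_est (h : TW τ) (e e' v : A) (he : star e = e) (hee : e * e = e)
    (hv2 : v * v = 0) (hv : v * star v * v = v) (he' : e' = star v * v + v * star v)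
    (hc : (e * v * e) * (e * star v * e) = (e * star v * e) * (e * v * e)) :
    n2 τ e ≤ 7 * n2 τ (e - e') := by
  have hs2 : star v * star v = 0 := by rw [← star_mul, hv2, star_zero]
  have hvs : star v * v * star v = star v := by
    have := congrArg star hv
    simpa only [star_mul, star_star, mul_assoc] using this
  have a1 : e' * v = v := by
    rw [he', add_mul, hv, mul_assoc, hv2, mul_zero, zero_add]
  have a2 : v * e' = v := by
    rw [he', mul_add, ← mul_assoc, hv, ← mul_assoc, hv2, zero_mul, add_zero]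
  have a3 : e' * star v = star v := by
    rw [he', add_mul, hvs, mul_assoc, hs2, mul_zero, add_zero]
  have a4 : star v * e' = star v := by
    rw [he', mul_add, ← mul_assoc, hs2, zero_mul, zero_add, ← mul_assoc, hvs]
  have a5 : e' * e' = e' := by
    calc e' * e' = (star v * v + v * star v) * e' := by rw [← he']
      _ = star v * v + v * star v := by rw [add_mul, mul_assoc, a2, mul_assoc, a4]
      _ = e' := he'.symm
  have a6 : star e' = e' := by
    rw [he', star_add, star_mul, star_mul, star_star]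
  have nv := pi_norm_le v hv
  have nvs : ‖star v‖ ≤ 1 := by rw [norm_star]; exact nv
  have ne := proj_norm_le e he hee
  have ne' := proj_norm_le e' a6 a5
  have key : ∀ x y : A, ‖x‖ ≤ 1 → ‖y‖ ≤ 1 → e' * x = x → x * e' = x → e' * y = y → y * e' = y →
      n2 τ ((e * x * e) * (e * y * e) - x * y) ≤ 3 * n2 τ (e - e') := by
    intro x y hx hy x1 x2 y1 y2
    have e1 : (e * x * e) * (e * y * e) - x * y = 1 * (e - e') * (x * e * y * e) +
        x * (e - e') * (y * e) + (x * y) * (e - e') * 1 := by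
      have e2 : (e * x * e) * (e * y * e) = e * x * e * y * e := by
        calc (e * x * e) * (e * y * e) = e * x * (e * e) * y * e := by simp only [mul_assoc]
          _ = _ := by rw [hee]
      rw [e2, one_mul, mul_one, sub_mul, mul_sub, sub_mul, mul_sub]
      have e3 : e' * (x * e * y * e) = x * e * y * e := by
        rw [← mul_assoc, ← mul_assoc, ← mul_assoc, x1]
      have e4 : x * e' * (y * e) = x * y * e := by rw [x2, mul_assoc]
      have e5 : x * y * e' = x * y := by rw [mul_assoc, y2]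
      have e6 : e * (x * e * y * e) = e * x * e * y * e := by simp only [mul_assoc]
      have e7 : x * e * (y * e) = x * e * y * e := by simp only [mul_assoc]
      rw [e3, e4, e5, e6, e7]
      abel
    have n1 : ‖x * e * y * e‖ ≤ 1 := by
      have m1 : ‖x * e‖ ≤ 1 := (norm_mul_le _ _).trans (mul_le_one₀ hx (norm_nonneg _) ne)
      have m2 : ‖x * e * y‖ ≤ 1 := (norm_mul_le _ _).trans (mul_le_one₀ m1 (norm_nonneg _) hy)
      exact (norm_mul_le _ _).trans (mul_le_one₀ m2 (norm_nonneg _) ne)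
    have n2' : ‖y * e‖ ≤ 1 := (norm_mul_le _ _).trans (mul_le_one₀ hy (norm_nonneg _) ne)
    have n3 : ‖x * y‖ ≤ 1 := (norm_mul_le _ _).trans (mul_le_one₀ hx (norm_nonneg _) hy)
    have n4 := norm_one_le A
    rw [e1]
    have b1 := n2_sandwich h 1 (e - e') (x * e * y * e) n4 n1
    have b2 := n2_sandwich h x (e - e') (y * e) hx n2'
    have b3 := n2_sandwich h (x * y) (e - e') 1 n3 n4
    refine (h.n2_add_le _ _).trans ?_
    have b4 := h.n2_add_le (1 * (e - e') * (x * e * y * e)) (x * (e - e') * (y * e))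
    linarith
  have k1 := key v (star v) nv nvs a1 a2 a3 a4
  have k2 := key (star v) v nvs nv a3 a4 a1 a2
  rw [← hc, n2_sub_comm] at k2
  have k3 : n2 τ (v * star v - star v * v) ≤ 6 * n2 τ (e - e') := by
    have := h.n2_tri (v * star v) ((e * v * e) * (e * star v * e)) (star v * v)
    rw [n2_sub_comm] at k1
    rw [n2_sub_comm] at k2
    linarith
  have k4 : n2 τ (v * star v - star v * v) = n2 τ e' := by
    unfold n2
    congr 2
    rw [a6, a5]
    congr 1
    rw [star_sub, star_mul, star_mul, star_star]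
    have f1 : v * star v * (v * star v) = v * star v := by rw [← mul_assoc, hv]
    have f2 : v * star v * (star v * v) = 0 := by
      rw [mul_assoc, ← mul_assoc (star v), hs2, zero_mul, mul_zero]
    have f3 : star v * v * (v * star v) = 0 := by
      rw [mul_assoc, ← mul_assoc v, hv2, zero_mul, mul_zero]
    have f4 : star v * v * (star v * v) = star v * v := by rw [← mul_assoc, hvs]
    rw [sub_mul, mul_sub, mul_sub, f1, f2, f3, f4, he']
    abel
  have k5 := h.n2_tri e e' 0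
  rw [sub_zero, sub_zero] at k5
  rw [k4] at k3
  linarith

/-- Downward Löwenheim–Skolem. -/
theorem exists_sep (h : TW τ) (hA : NoAbA A) (F : Set A) (hF : F.Countable) :
    ∃ (B : Type) (_ : CStarAlgebra B) (ι : B →⋆ₐ[ℂ] A) (σ : B →ₗ[ℂ] ℂ),
      (∀ b, σ b = τ (ι b)) ∧ TW σ ∧ SepT σ ∧ NoAbA B ∧ ∀ x ∈ F, ∃ b, ι b = x := by
  classical
  obtain ⟨P, hP⟩ : ∃ P : ℕ → A → A → Prop, ∀ m d v, P m d v ↔ (v * v = 0 ∧ v * star v * v = v ∧
      n2 τ ((star v * v + v * star v) - d) < 1 / ((m : ℝ) + 1)) := ⟨_, fun _ _ _ => Iff.rfl⟩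
  obtain ⟨g, hg⟩ : ∃ g : ℕ → A → A, ∀ m d, (∃ v, P m d v) → P m d (g m d) :=
    ⟨fun m d => if hp : ∃ v, P m d v then hp.choose else 0, fun m d hp => by
      simp only [dif_pos hp]; exact hp.choose_spec⟩
  obtain ⟨s, hs, hsd⟩ := TopologicalSpace.exists_countable_dense ℂ
  obtain ⟨D, hDc, hCD, hst, hadd, hmul, hgD⟩ := exists_countable g
    (F ∪ (fun q : ℂ => algebraMap ℂ A q) '' s) (hF.union (hs.image _))
  have hsc : ∀ r : ℂ, algebraMap ℂ A r ∈ Cl τ D := by
    intro r ε hε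
    obtain ⟨q, hq, hrq⟩ := hsd.exists_dist_lt r hε
    refine ⟨algebraMap ℂ A q, hCD (Or.inr ⟨q, hq, rfl⟩), ?_⟩
    rw [← map_sub, Algebra.algebraMap_eq_smul_one, n2_smul]
    have h1 : n2 τ (1 : A) = 1 := by
      unfold n2
      rw [star_one, one_mul, h.one]
      simp
    rw [h1, mul_one, ← dist_eq_norm]
    exact hrq
  obtain ⟨W, hW1, hW, hW2⟩ := exists_closure h (StarAlgebra.adjoin ℂ D)
  have hDW : ∀ x ∈ D, x ∈ W := fun x hx => hW2 (StarAlgebra.subset_adjoin ℂ D hx)
  have hWD : ∀ x ∈ W, x ∈ Cl τ D := by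
    intro x hx ε hε
    have hx' : x ∈ Cl τ (StarAlgebra.adjoin ℂ D : Set A) := by
      rw [← hW1]; exact hx
    obtain ⟨y, hy, hxy⟩ := hx' (ε / 2) (by linarith)
    obtain ⟨z, hz, hyz⟩ := adj_le h D hst hadd hmul hsc y hy (ε / 2) (by linarith)
    exact ⟨z, hz, (h.n2_tri x y z).trans_lt (by linarith)⟩
  letI := cstarOf h W hW
  refine ⟨W, inferInstance, W.subtype, res τ W, fun b => rfl, tw_sub h W hW, ?_, ?_, ?_⟩
  · -- separability
    obtain ⟨d0, hd0, -⟩ := hsc 1 1 one_pos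
    obtain ⟨f, hf⟩ := hDc.exists_eq_range ⟨d0, hd0⟩
    have hfD : ∀ n, f n ∈ D := fun n => by rw [hf]; exact ⟨n, rfl⟩
    refine ⟨fun n => ⟨f n, hDW _ (hfD n)⟩, ?_⟩
    intro x ε hε
    obtain ⟨d, hd, hxd⟩ := hWD (x : A) x.2 ε hε
    rw [hf] at hd
    obtain ⟨n, rfl⟩ := hd
    exact ⟨n, hxd⟩
  · -- no abelian projection
    intro e he hee he0
    by_contra hcon
    push Not at hcon
    have heA : star (e : A) = (e : A) := congrArg Subtype.val he
    have heeA : (e : A) * (e : A) = (e : A) := congrArg Subtype.val hee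
    have key : ∀ m : ℕ, n2 τ (e : A) ≤ 14 * (1 / ((m : ℝ) + 1)) := by
      intro m
      have hm : (0 : ℝ) < 1 / ((m : ℝ) + 1) := by positivity
      obtain ⟨d, hd, hed⟩ := hWD (e : A) e.2 _ hm
      obtain ⟨v, hv, hv1⟩ := half' h (sq_of_noAb A τ h hA) (e : A) heA heeA
      have hex : ∃ v, P m d v := ⟨v, (hP m d v).2 ⟨hv.sq, hv.pi, by rw [hv1]; exact hed⟩⟩
      have hPg := (hP m d (g m d)).1 (hg m d hex)
      obtain ⟨q1, q2, q3⟩ := hPg
      have hgW : g m d ∈ W := hDW _ (hgD m d hd)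
      have hc := congrArg Subtype.val (hcon ⟨g m d, hgW⟩ (star ⟨g m d, hgW⟩))
      have hest := corner_est h (e : A) _ (g m d) heA heeA q1 q2 rfl hc
      have q4 := h.n2_tri (e : A) d (star (g m d) * g m d + g m d * star (g m d))
      rw [n2_sub_comm] at q3
      linarith
    apply he0
    apply Subtype.ext
    show (e : A) = 0
    refine h.eq_zero (le_antisymm ?_ (n2_nonneg _ _))
    refine le_of_forall_pos_le_add fun ε hε => ?_
    obtain ⟨m, hm⟩ := exists_nat_one_div_lt (show (0 : ℝ) < ε / 14 by positivity)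
    have := key m
    linarith
  · intro x hx
    exact ⟨⟨x, hDW _ (hCD (Or.inl hx))⟩, rfl⟩

end Pool.Agent.H170R5.SC
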