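import Mathlib
import Pool.Agent.H170R5.SC.Sub
import Pool.Agent.H170R5.SC.Mob

/-! Sequences of unitaries asymptotically commuting with a generating set. -/

set_option autoImplicit false

open scoped ComplexOrder Topology
open Filter

noncomputable section

namespace Pool.Agent.H170R5.SC

open Pool.Agent.H467F Pool.Agent.H735G Pool.Agent.H594R3.GEN

variable {A : Type} [CStarAlgebra A] {τ : A →ₗ[ℂ] ℂ}

/-- the commutator -/
def cm (x : A) (w : unitary A) : A := x * w - w * x

theorem cm_star (h : TW τ) (x : A) (w : unitary A) : n2 τ (cm (star x) w) ≤ n2 τ (cm x w) := by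
  rw [← h.n2_star]
  have e1 : star (cm (star x) w) = star (w : A) * cm x w * star (w : A) := by
    unfold cm
    have h1 := Unitary.coe_star_mul_self w
    have h2 : (w : A) * star (w : A) = 1 := Unitary.coe_mul_star_self w
    rw [star_sub, star_mul, star_mul, star_star]
    calc star (w : A) * x - x * star (w : A)
        = star (w : A) * x * ((w : A) * star (w : A)) -
          (star (w : A) * (w : A)) * x * star (w : A) := by rw [h1, h2, mul_one, one_mul]
      _ = star (w : A) * (x * (w : A) - (w : A) * x) * star (w : A) := by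
          simp only [mul_sub, sub_mul, mul_assoc]
  rw [e1]
  have h3 : ‖star (w : A)‖ ≤ 1 := by rw [norm_star]; exact norm_uni_le w
  exact n2_sandwich h _ _ _ h3 h3

theorem cm_le (h : TW τ) (x : A) (w : unitary A) : n2 τ (cm x w) ≤ 2 * n2 τ x := by
  unfold cm
  have h1 := (n2_mul_le h (w : A) x).1
  have h2 := (n2_mul_le h (w : A) x).2
  have h3 := norm_uni_le w
  have h4 := n2_nonneg τ x
  refine (h.n2_sub_le _ _).trans ?_
  nlinarith

theorem cm_adj (h : TW τ) (U : Filter ℕ) (w : ℕ → unitary A) (s : Set A)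
    (hs : ∀ x ∈ s, Tendsto (fun n => n2 τ (cm x (w n))) U (𝓝 0)) (x : A)
    (hx : x ∈ StarAlgebra.adjoin ℂ s) : Tendsto (fun n => n2 τ (cm x (w n))) U (𝓝 0) := by
  induction hx using StarAlgebra.adjoin_induction with
  | mem x hx => exact hs x hx
  | algebraMap r =>
    have : ∀ n, n2 τ (cm (algebraMap ℂ A r) (w n)) = 0 := by
      intro n
      unfold cm
      rw [Algebra.commutes, sub_self, n2_zero]
    simp only [this]
    exact tendsto_const_nhds
  | add x y _ _ hx hy =>
    refine squeeze_zero (fun n => n2_nonneg _ _) (fun n => ?_) (by simpa using hx.add hy)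
    have e : cm (x + y) (w n) = cm x (w n) + cm y (w n) := by
      unfold cm; rw [add_mul, mul_add]; abel
    rw [e]
    exact h.n2_add_le _ _
  | mul x y _ _ hx hy =>
    refine squeeze_zero (fun n => n2_nonneg _ _) (fun n => ?_)
      (by simpa using (hy.const_mul ‖x‖).add (hx.mul_const ‖y‖))
    have e : cm (x * y) (w n) = x * cm y (w n) + cm x (w n) * y := by
      unfold cm; noncomm_ring
    rw [e]
    exact (h.n2_add_le _ _).trans (add_le_add (n2_mul_le h x _).1 (n2_mul_le h y _).2)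
  | star x _ hx =>
    exact squeeze_zero (fun n => n2_nonneg _ _) (fun n => cm_star h x (w n)) hx

theorem cm_cl (h : TW τ) (U : Filter ℕ) (w : ℕ → unitary A) (s : Set A)
    (hs : ∀ x ∈ s, Tendsto (fun n => n2 τ (cm x (w n))) U (𝓝 0)) (x : A)
    (hx : x ∈ Cl τ (StarAlgebra.adjoin ℂ s : Set A)) :
    Tendsto (fun n => n2 τ (cm x (w n))) U (𝓝 0) := by
  rw [Metric.tendsto_nhds]
  intro ε hε
  obtain ⟨y, hy, hxy⟩ := hx (ε / 4) (by linarith)
  have h1 := Metric.tendsto_nhds.1 (cm_adj h U w s hs y hy) (ε / 2) (by linarith)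
  filter_upwards [h1] with n hn
  rw [Real.dist_eq, sub_zero, abs_of_nonneg (n2_nonneg _ _)] at hn ⊢
  have e : cm x (w n) = cm (x - y) (w n) + cm y (w n) := by
    unfold cm; rw [sub_mul, mul_sub]; abel
  rw [e]
  have h2 := h.n2_add_le (cm (x - y) (w n)) (cm y (w n))
  have h3 := cm_le h (x - y) (w n)
  linarith

/-- Unitaries with small first two moments which asymptotically commute with the elements of a
finite set give unitaries of trace zero almost commuting with this set. -/
theorem gamma_of (h : TW τ) (U : Filter ℕ) [U.NeBot] (w : ℕ → unitary A)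
    (h1 : Tendsto (fun n => τ (w n : A)) U (𝓝 0))
    (h2 : Tendsto (fun n => τ ((w n : A) * w n)) U (𝓝 0)) (F : Finset A)
    (hF : ∀ x ∈ F, Tendsto (fun n => n2 τ (cm x (w n))) U (𝓝 0)) (ε : ℝ) (hε : 0 < ε) :
    ∃ W : unitary A, τ (W : A) = 0 ∧ ∀ x ∈ F, n2 τ (cm x W) < ε := by
  obtain ⟨M, hM⟩ : ∃ M : ℝ, M = ∑ x ∈ F, ‖x‖ := ⟨_, rfl⟩
  have hM0 : 0 ≤ M := by rw [hM]; exact Finset.sum_nonneg fun _ _ => norm_nonneg _
  have hMx : ∀ x ∈ F, ‖x‖ ≤ M := by
    intro x hx
    rw [hM]
    exact Finset.single_le_sum (f := fun x : A => ‖x‖) (fun _ _ => norm_nonneg _) hx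
  obtain ⟨r, hr⟩ : ∃ r : ℝ, r = min (1 / 32) (ε / (16 * (M + 1))) := ⟨_, rfl⟩
  have hr0 : 0 < r := by rw [hr]; exact lt_min (by norm_num) (by positivity)
  have hr1 : r ≤ 1 / 32 := by rw [hr]; exact min_le_left _ _
  have hr2 : r * (16 * (M + 1)) ≤ ε := by
    have : r ≤ ε / (16 * (M + 1)) := by rw [hr]; exact min_le_right _ _
    rwa [le_div_iff₀ (by positivity)] at this
  have a1 := Metric.tendsto_nhds.1 h1 (r / 2) (by linarith)
  have a2 := Metric.tendsto_nhds.1 h2 (1 / 4) (by norm_num)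
  have a3 : ∀ᶠ n in U, ∀ x ∈ F, n2 τ (cm x (w n)) < ε / 2 := by
    rw [Filter.eventually_all_finset]
    intro x hx
    have := Metric.tendsto_nhds.1 (hF x hx) (ε / 2) (by linarith)
    filter_upwards [this] with n hn
    rwa [Real.dist_eq, sub_zero, abs_of_nonneg (n2_nonneg _ _)] at hn
  obtain ⟨n, b1, b2, b3⟩ := (a1.and (a2.and a3)).exists
  rw [dist_zero_right] at b1 b2
  obtain ⟨W, hW0, hW⟩ := mobius h (w n) r hr0 hr1 b1.le b2.le
  refine ⟨W, hW0, fun x hx => ?_⟩
  have e : cm x W = cm x (w n) + (x * ((W : A) - w n) - ((W : A) - w n) * x) := by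
    unfold cm; rw [mul_sub, sub_mul]; abel
  have c1 : n2 τ (x * ((W : A) - w n) - ((W : A) - w n) * x) ≤ 2 * (‖x‖ * (4 * r)) := by
    refine ((tau_bounds h).2 _).trans ((norm_sub_le _ _).trans ?_)
    have d1 : ‖x * ((W : A) - w n)‖ ≤ ‖x‖ * (4 * r) :=
      (norm_mul_le _ _).trans (mul_le_mul_of_nonneg_left hW (norm_nonneg _))
    have d2 : ‖((W : A) - w n) * x‖ ≤ ‖x‖ * (4 * r) := by
      refine (norm_mul_le _ _).trans ?_
      rw [mul_comm]
      exact mul_le_mul_of_nonneg_left hW (norm_nonneg _)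
    linarith
  rw [e]
  have c2 := h.n2_add_le (cm x (w n)) (x * ((W : A) - w n) - ((W : A) - w n) * x)
  have c3 := b3 x hx
  have c4 := hMx x hx
  nlinarith

end Pool.Agent.H170R5.SC
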